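import Pool.Agent.U795.Z7.Defs

open Polynomial Pool.Agent.H337R2

namespace Pool.Agent.U795.Z7

noncomputable section

variable {p : ℕ} [hp : Fact p.Prime]

lemma C3_pa_crude {n : ℕ} (hn : 1 ≤ n) (E : ℚ[X]) (A : ℚ) (hA : 0 ≤ A) {k : ℕ} (hk : k ∈ sN n)
    (hE : PB p ((50 * n + 1 : ℕ) : ℚ) A (TS (-(k : ℚ)) E)) (i : ℕ) :
    padicNorm p (pa (sN n) (muN n) (PPn n * E) k i) ≤ ((50 * n + 1 : ℕ) : ℚ) ^ 30 * A := by
  have hc : ∀ d ∈ ds10, 2 < d := by simp [ds10]
  have h2 : ∀ d ∈ ds10, 2 * d < 18 := by simp [ds10]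
  set M : ℚ := ((50 * n + 1 : ℕ) : ℚ) with hM
  have hM1 : 1 ≤ M := by rw [hM]; exact_mod_cast (by omega : 1 ≤ 50 * n + 1)
  have hM0 : (0 : ℚ) ≤ M := by linarith
  have hcst : 0 ≤ padicNorm p (cst 5 18 2 n ds10) := padicNorm.nonneg _
  have hlen : ds10.length = 10 := rfl
  unfold pa
  split_ifs with hi
  · have hkk := hk
    rw [sN, ss, Finset.mem_Icc] at hkk
    have hB0 : 0 ≤ padicNorm p (cst 5 18 2 n ds10) * (padicNorm p (Nat.factorial (2 * n) : ℚ)) ^ (2 * 5) :=
      mul_nonneg hcst (pow_nonneg (padicNorm.nonneg _) _)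
    have hPB : PB p M (padicNorm p (cst 5 18 2 n ds10) * (padicNorm p (Nat.factorial (2 * n) : ℚ)) ^ (2 * 5) * A)
        (TS (-(k : ℚ)) (PPn n * E)) := by
      rw [map_mul]
      exact PB.mul hM0 hB0 hA
        (PB_PP_crude 5 18 2 n ds10 k hk M hM1 (by rw [hM]; exact_mod_cast (by omega : 18 * n ≤ 50 * n + 1)) (by norm_num)) hE
    have h1 := pfc_bound (p := p) (sN n) (muN n) (PPn n * E) k M _
      (fun m => if m = k then 1 else (padicNorm p ((m : ℚ) - k))⁻¹) hM0
      (mul_nonneg hB0 hA) hPB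
      (by
        intro m hm _
        have hmk := Finset.ne_of_mem_erase hm
        have hm2 := Finset.mem_of_mem_erase hm
        rw [sN, ss, Finset.mem_Icc] at hm2
        simp only [hmk, if_false]
        refine ⟨le_rfl, ?_⟩
        have h3 := norm_inv_le (p := p) (a := (m : ℤ) - k) (by omega) (M := M) (by
          push_cast
          rw [abs_le, hM]
          push_cast
          have h5 : (m : ℚ) ≤ 18 * n := by exact_mod_cast (by omega : m ≤ 18 * n)
          have h6 : (k : ℚ) ≤ 18 * n := by exact_mod_cast (by omega : k ≤ 18 * n)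
          have h7 : (0 : ℚ) ≤ m := by positivity
          have h8 : (0 : ℚ) ≤ k := by positivity
          constructor <;> linarith)
        push_cast at h3
        exact h3)
      (by
        intro m _
        beta_reduce
        split_ifs
        · exact zero_le_one
        · exact inv_nonneg.2 (padicNorm.nonneg _)) (muN n k - i)
    refine h1.trans ?_
    have h4 : ∏ m ∈ (sN n).erase k, (if m = k then 1 else (padicNorm p ((m : ℚ) - k))⁻¹) ^ muN n m
        = (ds10.map fun d => ∏ m ∈ Finset.Icc (d * n) (18 * n - d * n), (if m = k then 1 else (padicNorm p ((m : ℚ) - k))⁻¹)).prod := by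
      rw [← prod_mu 18 2 n ds10 hn hc h2, ← Finset.mul_prod_erase _ _ hk]
      simp
    rw [h4]
    have hF : 0 < padicNorm p (Nat.factorial (2 * n) : ℚ) :=
      lt_of_le_of_ne (padicNorm.nonneg _) (Ne.symm (padicNorm.nonzero (by exact_mod_cast Nat.factorial_ne_zero _)))
    have h5 : padicNorm p (cst 5 18 2 n ds10) * (padicNorm p (Nat.factorial (2 * n) : ℚ)) ^ (2 * 5)
        = (ds10.map fun d => padicNorm p (Nat.factorial ((18 - 2 * d) * n) : ℚ)).prod := by
      unfold cst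
      rw [padicNorm.div, padicNorm_pow', padicNorm_listprod, div_mul_cancel₀]
      exact pow_ne_zero _ hF.ne'
    have h6 : ∀ l : List ℕ, (∀ d ∈ l, 2 * d < 18) → (l.map fun d => padicNorm p (Nat.factorial ((18 - 2 * d) * n) : ℚ) *
        ∏ m ∈ Finset.Icc (d * n) (18 * n - d * n), (if m = k then 1 else (padicNorm p ((m : ℚ) - k))⁻¹)).prod ≤ (M ^ 2) ^ l.length := by
      intro l hl
      induction l with
      | nil => simp
      | cons d l ih =>
        rw [List.map_cons, List.prod_cons, List.length_cons, pow_succ']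
        have hd := hl d (by simp)
        have hdn : 18 * n = (18 - 2 * d) * n + 2 * (d * n) := by
          have : 18 = (18 - 2 * d) + 2 * d := by omega
          conv_lhs => rw [this]
          ring
        have e1 : 18 * n - d * n = d * n + (18 - 2 * d) * n := by omega
        rw [e1]
        apply mul_le_mul
        · apply brick_bound (p := p) (d * n) ((18 - 2 * d) * n) k M hM1
          · rw [hM]; exact_mod_cast (by omega : (18 - 2 * d) * n + 1 ≤ 50 * n + 1)
          · rw [hM]; exact_mod_cast (by omega : d * n + (18 - 2 * d) * n ≤ 50 * n + 1)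
          · rw [hM]; exact_mod_cast (by omega : k ≤ 50 * n + 1)
        · have := ih (fun d' hd' => hl d' (List.mem_cons_of_mem _ hd'))
          exact this
        · apply List.prod_nonneg
          intro a ha
          rw [List.mem_map] at ha
          obtain ⟨d', _, rfl⟩ := ha
          apply mul_nonneg (padicNorm.nonneg _)
          apply Finset.prod_nonneg
          intro m _
          split_ifs
          · exact zero_le_one
          · exact inv_nonneg.2 (padicNorm.nonneg _)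
        · positivity
    have h7 : muN n k - i ≤ 10 := (Nat.sub_le _ _).trans (mu_le_length 18 n ds10 k)
    have h8 := h6 ds10 h2
    rw [List.prod_map_mul, ← h5, hlen] at h8
    set P1 : ℚ := padicNorm p (cst 5 18 2 n ds10) * (padicNorm p (Nat.factorial (2 * n) : ℚ)) ^ (2 * 5) with hP1
    set P2 : ℚ := (ds10.map fun d => ∏ m ∈ Finset.Icc (d * n) (18 * n - d * n), (if m = k then 1 else (padicNorm p ((m : ℚ) - k))⁻¹)).prod with hP2
    calc P1 * A * P2 * M ^ (muN n k - i) = (P1 * P2) * (A * M ^ (muN n k - i)) := by ring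
      _ ≤ (M ^ 2) ^ 10 * (A * M ^ 10) := by
          apply mul_le_mul h8 _ (by positivity) (by positivity)
          exact mul_le_mul_of_nonneg_left (pow_le_pow_right₀ hM1 h7) hA
      _ = M ^ 30 * A := by ring
  · rw [padicNorm.zero]; positivity

lemma C3_gen {p : ℕ} [Fact p.Prime] (S : Finset ℕ) (M A : ℚ) (hM1 : 1 ≤ M) (hA : 0 ≤ A) (q : ℕ) (u0 c : ℚ)
    (hc : padicNorm p c ≤ 1) (hui : padicNorm p ((q : ℚ) * u0) ≤ 1) (a h : ℕ → ℚ)
    (ha : ∀ k ∈ S, padicNorm p (a k) ≤ M ^ 30 * A) (hh : ∀ k ∈ S, padicNorm p (h k) ≤ M ^ 14) :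
    padicNorm p ((q : ℚ) * (c * ((∑ k ∈ S, a k) * u0 - ∑ k ∈ S, a k * h k))) ≤ M ^ 300 * A := by
  have hM0 : (0 : ℚ) ≤ M := by linarith
  have hW : 0 ≤ M ^ 300 * A := by positivity
  have hq1 : padicNorm p (q : ℚ) ≤ 1 := padicNorm.of_nat q
  have h18 : M ^ 30 * A ≤ M ^ 300 * A :=
    mul_le_mul_of_nonneg_right (pow_le_pow_right₀ hM1 (by norm_num)) hA
  have h26 : M ^ 44 * A ≤ M ^ 300 * A :=
    mul_le_mul_of_nonneg_right (pow_le_pow_right₀ hM1 (by norm_num)) hA
  have f1 : padicNorm p (∑ k ∈ S, a k * ((q : ℚ) * u0)) ≤ M ^ 300 * A := by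
    apply padicNorm.sum_le' _ hW
    intro k hk
    rw [padicNorm.mul]
    have g1 := ha k hk
    have g0 : 0 ≤ padicNorm p (a k) := padicNorm.nonneg _
    calc padicNorm p (a k) * padicNorm p ((q : ℚ) * u0) ≤ padicNorm p (a k) * 1 :=
          mul_le_mul_of_nonneg_left hui g0
      _ ≤ M ^ 300 * A := by rw [mul_one]; exact g1.trans h18
  have f2 : padicNorm p (∑ k ∈ S, (q : ℚ) * (a k * h k)) ≤ M ^ 300 * A := by
    apply padicNorm.sum_le' _ hW
    intro k hk
    rw [padicNorm.mul, padicNorm.mul]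
    have g1 := ha k hk
    have g2 := hh k hk
    have g0 : 0 ≤ padicNorm p (a k) := padicNorm.nonneg _
    have g3 : 0 ≤ padicNorm p (h k) := padicNorm.nonneg _
    have g4 : 0 ≤ M ^ 30 * A := by positivity
    have g5 : padicNorm p (a k) * padicNorm p (h k) ≤ (M ^ 30 * A) * M ^ 14 :=
      mul_le_mul g1 g2 g3 g4
    calc padicNorm p (q : ℚ) * (padicNorm p (a k) * padicNorm p (h k)) ≤ 1 * (padicNorm p (a k) * padicNorm p (h k)) :=
          mul_le_mul_of_nonneg_right hq1 (mul_nonneg g0 g3)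
      _ ≤ (M ^ 30 * A) * M ^ 14 := by rw [one_mul]; exact g5
      _ = M ^ 44 * A := by ring
      _ ≤ M ^ 300 * A := h26
  have e : (q : ℚ) * (c * ((∑ k ∈ S, a k) * u0 - ∑ k ∈ S, a k * h k))
      = c * (∑ k ∈ S, a k * ((q : ℚ) * u0) - ∑ k ∈ S, (q : ℚ) * (a k * h k)) := by
    rw [← Finset.sum_mul, ← Finset.mul_sum]; ring
  rw [e, padicNorm.mul]
  have f3 : padicNorm p (∑ k ∈ S, a k * ((q : ℚ) * u0) - ∑ k ∈ S, (q : ℚ) * (a k * h k)) ≤ M ^ 300 * A :=
    padicNorm.sub.trans (max_le f1 f2)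
  calc padicNorm p c * _ ≤ 1 * _ := mul_le_mul_of_nonneg_right hc (padicNorm.nonneg _)
    _ ≤ M ^ 300 * A := by rw [one_mul]; exact f3

theorem C3_xf_crude {n p : ℕ} [Fact p.Prime] (hn : 1 ≤ n) (q : ℕ) (u : ℕ → ℚ) (hu : UInt q u)
    (E : ℚ[X]) (A : ℚ) (hA : 0 ≤ A)
    (hE : ∀ k ∈ sN n, PB p ((50 * n + 1 : ℕ) : ℚ) A (TS (-(k : ℚ)) E)) :
    padicNorm p ((q : ℚ) * xf n u (PPn n * E)) ≤ ((50 * n + 1 : ℕ) : ℚ) ^ 300 * A := by
  obtain ⟨hq, hu⟩ := hu
  have hM1 : (1 : ℚ) ≤ ((50 * n + 1 : ℕ) : ℚ) := by exact_mod_cast (by omega : 1 ≤ 50 * n + 1)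
  have hW : 0 ≤ ((50 * n + 1 : ℕ) : ℚ) ^ 300 * A := by positivity
  have hpa : ∀ i : ℕ, ∀ k ∈ sN n, padicNorm p (pa (sN n) (muN n) (PPn n * E) k i) ≤ ((50 * n + 1 : ℕ) : ℚ) ^ 30 * A :=
    fun i k hk => C3_pa_crude hn E A hA hk (hE k hk) i
  have hh : ∀ i : ℕ, i ≤ 9 + 1 → ∀ k ∈ sN n, padicNorm p (hs (i + 4) (k - 2 * n - 1)) ≤ ((50 * n + 1 : ℕ) : ℚ) ^ 14 := by
    intro i hi k hk
    have h4 := hs_norm_crude (p := p) (i + 4) (k - 2 * n - 1) ((50 * n + 1 : ℕ) : ℚ) (by
        rw [sN, ss, Finset.mem_Icc] at hk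
        exact_mod_cast (by omega : k - 2 * n - 1 ≤ 50 * n + 1)) hM1
    exact h4.trans (pow_le_pow_right₀ hM1 (by omega))
  unfold xf
  rw [Finset.mul_sum]
  apply padicNorm.sum_le' _ hW
  intro i hi
  rw [Finset.mem_Icc] at hi
  have hch : padicNorm p ((Nat.choose (i + 3) 4 : ℕ) : ℚ) ≤ 1 := padicNorm.of_nat _
  have hui : padicNorm p ((q : ℚ) * u i) ≤ 1 := by
    obtain ⟨z, hz⟩ := hu i
    rw [hz]; exact padicNorm.of_int z
  have key := C3_gen (p := p) (sN n) ((50 * n + 1 : ℕ) : ℚ) A hM1 hA q (u i) ((Nat.choose (i + 3) 4 : ℕ) : ℚ)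
    hch hui (fun k => pa (sN n) (muN n) (PPn n * E) k i) (fun k => hs (i + 4) (k - 2 * n - 1))
    (hpa i) (hh i (by omega))
  exact key

end

end Pool.Agent.U795.Z7
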