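import Pool.Agent.U795.Z7.C2
import Pool.Agent.U795.Z7.C3
import Pool.Agent.U795.Z7.C4
import Pool.Agent.H336R2.HD.A1
import Pool.Agent.H336R2.HD.A3

/-!
# D4: size of the determinant at small primes
-/

open Polynomial Pool.Agent.H337R2

namespace Pool.Agent.U795.Z7

noncomputable section

/-- the assembly common to both cases -/
lemma D4_aux {n p : ℕ} [Fact p.Prime] (q : ℕ) (u : ℕ → ℚ) (m : ℕ) (U : ℚ) (hU : 0 ≤ U)
    (h : ∀ i j : ℕ, i < m → j < m → padicNorm p ((q : ℚ) * xf n u (PPn n * EE n (CP n i * CP n j))) ≤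
      U * (padicNorm p (((2 * i - 1).factorial : ℕ) : ℚ) * padicNorm p (((2 * j - 1).factorial : ℕ) : ℚ))) :
    padicNorm p ((q : ℚ) ^ m * DET n u m) ≤
      U ^ m * ∏ i ∈ Finset.range m, padicNorm p (((2 * i - 1).factorial : ℕ) : ℚ) ^ 2 := by
  have h1 : (q : ℚ) ^ m * DET n u m =
      ((q : ℚ) • (Matrix.of fun i j : Fin m => NL n u (CP n i * CP n j))).det := by
    rw [Matrix.det_smul, Fintype.card_fin, DET,
      ← H336R2.HD.A1_det_monic (NL n u) m (CP n) (fun i _ => C4_CP n i)]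
  rw [h1]
  have h2 := H336R2.HD.A3_padic_det p m
    ((q : ℚ) • (Matrix.of fun i j : Fin m => NL n u (CP n i * CP n j)))
    (fun i => U * padicNorm p (((2 * i - 1).factorial : ℕ) : ℚ) ^ 2)
    (fun i => mul_nonneg hU (by positivity)) (by
      intro i j
      have h3 := h i j i.2 j.2
      have h4 : (((q : ℚ) • (Matrix.of fun i j : Fin m => NL n u (CP n i * CP n j))) i j) =
          (q : ℚ) * xf n u (PPn n * EE n (CP n i * CP n j)) := by
        rw [Matrix.smul_apply, Matrix.of_apply, smul_eq_mul, NL_apply]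
      rw [h4]
      calc _ ≤ (U * (padicNorm p (((2 * (i : ℕ) - 1).factorial : ℕ) : ℚ) *
            padicNorm p (((2 * (j : ℕ) - 1).factorial : ℕ) : ℚ))) ^ 2 :=
            pow_le_pow_left₀ (padicNorm.nonneg _) h3 2
        _ = _ := by ring)
  refine h2.trans (le_of_eq ?_)
  rw [Finset.prod_mul_distrib, Finset.prod_const, Finset.card_range]

theorem D4_small_med {n p : ℕ} [Fact p.Prime] (hn : 1 ≤ n) (hp2 : 50 * n < p ^ 2) (q : ℕ) (u : ℕ → ℚ)
    (hu : UInt q u) (m : ℕ) (hm : m ≤ 25 * n) :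
    padicNorm p ((q : ℚ) ^ m * DET n u m) ≤
      ((p : ℚ) ^ 14) ^ m * ∏ i ∈ Finset.range m, padicNorm p (((2 * i - 1).factorial : ℕ) : ℚ) ^ 2 := by
  have hp : p.Prime := Fact.out
  have hp1 : (1 : ℚ) ≤ p := by exact_mod_cast hp.one_lt.le
  apply D4_aux q u m _ (by positivity)
  intro i j hi hj
  have hA : 0 ≤ padicNorm p (((2 * i - 1).factorial : ℕ) : ℚ) * padicNorm p (((2 * j - 1).factorial : ℕ) : ℚ) :=
    mul_nonneg (padicNorm.nonneg _) (padicNorm.nonneg _)
  apply C2_xf_le_all hn (by omega) q u hu (EE n (CP n i * CP n j)) _ (by positivity)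
    (fun _ => padicNorm p (((2 * i - 1).factorial : ℕ) : ℚ) * padicNorm p (((2 * j - 1).factorial : ℕ) : ℚ))
    (fun _ => hA)
  · intro k _
    apply C4_CP_PB hn (p : ℚ) hp1 _ i j (by omega) (by omega) k
    intro l hl1 hl2
    have h1 := norm_small (p := p) (a := (l : ℤ)) (by omega) (by
      rw [abs_of_nonneg (by positivity)]
      have h2 : l < p ^ 2 := by omega
      exact_mod_cast h2)
    rw [Int.cast_natCast] at h1
    rw [h1]
    split_ifs
    · rw [inv_inv]
    · rw [inv_one]; exact hp1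
  · intro k _
    apply mul_le_mul_of_nonneg_right _ hA
    rw [← zpow_natCast (p : ℚ) 14]
    apply zpow_le_zpow_right₀ hp1
    have h3 := ee_ge p 5 18 2 n k ds10 hp.pos (by norm_num) (by omega) (by decide)
    have h4 : ds10.length = 10 := rfl
    rw [h4] at h3
    push_cast at h3 ⊢
    linarith

/-- crude bound for the primes with `p² ≤ 50 n` (the exponent `100` is generous) -/
theorem D4_small_crude {n p : ℕ} [Fact p.Prime] (hn : 1 ≤ n) (q : ℕ) (u : ℕ → ℚ)
    (hu : UInt q u) (m : ℕ) (hm : m ≤ 25 * n) :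
    padicNorm p ((q : ℚ) ^ m * DET n u m) ≤
      (((50 * n + 1 : ℕ) : ℚ) ^ 300) ^ m * ∏ i ∈ Finset.range m, padicNorm p (((2 * i - 1).factorial : ℕ) : ℚ) ^ 2 := by
  apply D4_aux q u m _ (by positivity)
  intro i j hi hj
  apply C3_xf_crude hn q u hu (EE n (CP n i * CP n j)) _
    (mul_nonneg (padicNorm.nonneg _) (padicNorm.nonneg _))
  intro k _
  apply C4_CP_PB hn _ (by exact_mod_cast (by omega : 1 ≤ 50 * n + 1)) _ i j (by omega) (by omega) k
  intro l hl1 hl2
  have h1 := norm_inv_le (p := p) (a := (l : ℤ)) (by omega) (M := ((50 * n + 1 : ℕ) : ℚ)) (by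
    rw [Int.cast_natCast, abs_of_nonneg (by positivity)]
    exact_mod_cast (by omega : l ≤ 50 * n + 1))
  rw [Int.cast_natCast] at h1
  exact h1

end

end Pool.Agent.U795.Z7
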