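import Pool.Agent.U795.Z7.Defs
import Pool.Agent.H336R2.HD.D2

/-! Sums over the class pairs (used in E3A, E3B). -/

open Polynomial Pool.Agent.H337R2

namespace Pool.Agent.U795.Z7

noncomputable section

theorem E1_Kset_sum {n p : ℕ} (hp : p.Prime) (hp2 : p ≠ 2) (hpn : p < 18 * n) (f : ℕ → ℤ) (M : ℤ) (hM : 0 ≤ M)
    (hf : ∀ r < p, f r = f ((18 * n - r) % p)) (hfM : ∀ r < p, f r ≤ M) :
    2 * ∑ r ∈ Kset n p, f r ≤ ∑ r ∈ Finset.range p, f r + M := by
  classical
  set g : ℕ → ℕ := fun r => (18 * n - r) % p with hg
  have hgg : ∀ r < p, g (g r) = r := by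
    intro r hr
    simp only [hg]
    rw [H336R2.HD.D2_mod2 (by omega), Nat.mod_eq_of_lt hr]
  have hglt : ∀ r, g r < p := fun r => Nat.mod_lt _ hp.pos
  have hK : Kset n p = (Finset.range p).filter (fun r => r ≤ g r) := rfl
  have h1 : ∑ r ∈ Finset.range p, f r = ∑ r ∈ (Finset.range p).filter (fun r => r ≤ g r), f r +
      ∑ r ∈ (Finset.range p).filter (fun r => ¬ r ≤ g r), f r :=
    (Finset.sum_filter_add_sum_filter_not _ _ _).symm
  have h2 : ∑ r ∈ (Finset.range p).filter (fun r => ¬ r ≤ g r), f r =
      ∑ r ∈ (Finset.range p).filter (fun r => r < g r), f r := by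
    apply Finset.sum_bij' (fun r _ => g r) (fun r _ => g r)
    · intro r hr
      rw [Finset.mem_filter, Finset.mem_range] at hr ⊢
      refine ⟨hglt r, ?_⟩
      rw [hgg r hr.1]
      omega
    · intro r hr
      rw [Finset.mem_filter, Finset.mem_range] at hr ⊢
      refine ⟨hglt r, ?_⟩
      rw [hgg r hr.1]
      omega
    · intro r hr
      rw [Finset.mem_filter, Finset.mem_range] at hr
      exact hgg r hr.1
    · intro r hr
      rw [Finset.mem_filter, Finset.mem_range] at hr
      exact hgg r hr.1
    · intro r hr
      rw [Finset.mem_filter, Finset.mem_range] at hr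
      exact hf r hr.1
  have h3 : ∑ r ∈ (Finset.range p).filter (fun r => r ≤ g r), f r =
      ∑ r ∈ (Finset.range p).filter (fun r => r < g r), f r +
      ∑ r ∈ (Finset.range p).filter (fun r => r = g r), f r := by
    rw [← Finset.sum_union]
    · apply Finset.sum_congr _ (fun _ _ => rfl)
      ext r
      simp only [Finset.mem_filter, Finset.mem_union, Finset.mem_range]
      omega
    · rw [Finset.disjoint_left]
      intro r hr hr'
      rw [Finset.mem_filter] at hr hr'
      omega
  have h4 : ((Finset.range p).filter (fun r => r = g r)).card ≤ 1 := by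
    rw [Finset.card_le_one]
    intro a ha b hb
    rw [Finset.mem_filter, Finset.mem_range] at ha hb
    have ha2 : (2 * a) % p = (18 * n) % p := by
      have : (a + g a) % p = (18 * n) % p := by
        simp only [hg]
        rw [Nat.add_mod_mod]
        congr 1
        omega
      rw [← ha.2] at this
      rw [← this]
      congr 1
      ring
    have hb2 : (2 * b) % p = (18 * n) % p := by
      have : (b + g b) % p = (18 * n) % p := by
        simp only [hg]
        rw [Nat.add_mod_mod]
        congr 1
        omega
      rw [← hb.2] at this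
      rw [← this]
      congr 1
      ring
    have h5 : (2 * a) ≡ (2 * b) [MOD p] := ha2.trans hb2.symm
    have hcop : Nat.gcd p 2 = 1 := (Nat.coprime_primes hp Nat.prime_two).2 hp2
    have h6 : a ≡ b [MOD p] := Nat.ModEq.cancel_left_of_coprime hcop h5
    have h7 := h6.eq_of_lt_of_lt ha.1 hb.1
    exact h7
  have h5 : ∑ r ∈ (Finset.range p).filter (fun r => r = g r), f r ≤ M := by
    calc ∑ r ∈ (Finset.range p).filter (fun r => r = g r), f r
        ≤ ∑ _r ∈ (Finset.range p).filter (fun r => r = g r), M := by
          apply Finset.sum_le_sum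
          intro r hr
          rw [Finset.mem_filter, Finset.mem_range] at hr
          exact hfM r hr.1
      _ = ((Finset.range p).filter (fun r => r = g r)).card * M := by
          rw [Finset.sum_const, nsmul_eq_mul]
      _ ≤ 1 * M := by
          apply mul_le_mul_of_nonneg_right _ hM
          exact_mod_cast h4
      _ = M := one_mul M
  rw [hK]
  linarith

end

end Pool.Agent.U795.Z7
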