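import Pool.Agent.U795.Z7.E3Base
import Pool.Agent.U795.Z7.E1
import Pool.Agent.U795.Z7.E2
import Pool.Agent.U795.Z7.E2pz
import Pool.Agent.U795.Z7.D2

/-! Task E3B. -/

open Polynomial Pool.Agent.H337R2

namespace Pool.Agent.U795.Z7

noncomputable section

namespace E3Baux

open Pool.Agent.H336R2.HD (E3_TT_le E3_TT_le' E3_cnt_le E3_cnt_le_one E3_sum_cnt)

lemma sym (n p r : ℕ) (hn : 1 ≤ n) (hr : r < p) (hp : p < 18 * n) :
    eeN p n r = eeN p n ((18 * n - r) % p) := by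
  rw [D2_ee_congr (Nat.mod_mod (18 * n - r) p), D2_ee_refl hn (by omega)]

lemma bound {n p : ℕ} (hp : p.Prime) (hn : 7 ≤ n) (hpn : n < 20 * p) (hp5 : p < 18 * n) (hp2 : 18 * n < p ^ 2)
    (μ : ℤ) (hμ : μ = 5 - (10 * ((12 * n / p : ℕ) : ℤ) - 10 * ((2 * n / p : ℕ) : ℤ))) :
    2 * ∑ κ ∈ Kset n p, TT (4 - eeN p n κ - μ) ≤
      ∑ r ∈ Finset.range p, TT ((10 * (cP n p r : ℤ) - 5 * ((cz1 n p r : ℤ) + cz2 n p r)) - 1) + 2410 ^ 2 := by
  have hp0 : 0 < p := hp.pos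
  have hne : p ≠ 2 := by
    rintro rfl
    omega
  have hPle : ∀ r, (cP n p r : ℤ) ≤ 241 := by
    intro r
    have h1 := E3_cnt_le p (3 * n) (15 * n) r hp0 (by omega)
    have h2 : (((15 * n : ℕ) : ℤ) - ((3 * n : ℕ) : ℤ) + 1) / (p : ℤ) ≤ 240 := by
      have h3 : (((15 * n : ℕ) : ℤ) - ((3 * n : ℕ) : ℤ) + 1) ≤ (p : ℤ) * 240 := by
        push_cast
        have : (n : ℤ) < 20 * p := by exact_mod_cast hpn
        linarith
      calc (((15 * n : ℕ) : ℤ) - ((3 * n : ℕ) : ℤ) + 1) / (p : ℤ) ≤ ((p : ℤ) * 240) / p :=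
            Int.ediv_le_ediv (by exact_mod_cast hp0) h3
        _ = 240 := Int.mul_ediv_cancel_left _ (by exact_mod_cast hp0.ne')
    unfold cP
    linarith
  have h := E1_Kset_sum (n := n) hp hne hp5 (fun r => TT (4 - eeN p n r - μ)) (2410 ^ 2) (by norm_num)
    (by
      intro r hr
      rw [sym n p r (by omega) hr hp5])
    (by
      intro r hr
      rw [E3_form n p r μ hμ]
      apply E3_TT_le' _ 2410 (by norm_num)
      have h1 := hPle r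
      have h2 : (0 : ℤ) ≤ cz1 n p r := by positivity
      have h3 : (0 : ℤ) ≤ cz2 n p r := by positivity
      linarith)
  simp only [E3_form n p _ μ hμ] at h ⊢
  exact h

lemma JC (c : ℝ) (f : ℕ → ℝ) : ∑ j ∈ J, (f j + c) = ∑ j ∈ J, f j + 1000 * c := by
  rw [Finset.sum_add_distrib, Finset.sum_const, Nat.card_Icc]
  simp

lemma P2 {n p : ℕ} (hn : 1 ≤ n) (hp : p.Prime) (hpn : n < 20 * p) :
    ∑ r ∈ Finset.range p, (cP n p r : ℝ) ^ 2 ≤ (12 * n + 1) + 2 * (∑ j ∈ J, tn (12 * n) j p + 1000) := by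
  have h := E2_self (a := 12) hn hp hpn (3 * n) (by norm_num) (by norm_num)
  have h1 : 3 * n + 12 * n = 15 * n := by ring
  rw [h1, JC] at h
  push_cast at h
  unfold cP
  linarith

lemma z12 {n p : ℕ} (hn : 1 ≤ n) (hp : p.Prime) (hpn : n < 20 * p) :
    ∑ r ∈ Finset.range p, (cz1 n p r : ℝ) * cz2 n p r ≤
      ∑ j ∈ J, (tn (18 * n) j p - 2 * tn (16 * n) j p + tn (14 * n) j p) + 1000 := by
  have h := E2_zz hn hp hpn
  rw [JC] at h
  push_cast at h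
  unfold cz1 cz2
  linarith

lemma Pz {n p : ℕ} (hn : 1 ≤ n) (hp : p.Prime) (hpn : n < 20 * p) :
    2 * ∑ j ∈ J, (tn (15 * n) j p + tn n j p - tn (13 * n) j p - tn (3 * n) j p) ≤
    ∑ r ∈ Finset.range p, (cP n p r : ℝ) * (cz1 n p r + cz2 n p r) := by
  have h := E2_pz hn hp hpn
  push_cast at h
  unfold cP cz1 cz2
  linarith

lemma small_ineq (P z1 z2 : ℤ) (h1 : z1 = 0 ∨ z1 = 1) (h2 : z2 = 0 ∨ z2 = 1) :
    TT ((10 * P - 5 * (z1 + z2)) - 1) ≤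
      25 * P ^ 2 - 25 * (P * (z1 + z2)) + 6 * (z1 + z2) + 13 * (z1 * z2) := by
  refine (E3_TT_le _).trans ?_
  have e : (10 * P - 5 * (z1 + z2)) ^ 2 =
      25 * (z1 + z2) ^ 2 + 4 * (25 * P ^ 2 - 25 * (P * (z1 + z2))) := by ring
  rw [e, Int.add_mul_ediv_left _ _ (by norm_num)]
  rcases h1 with rfl | rfl <;> rcases h2 with rfl | rfl <;> norm_num <;> linarith

end E3Baux

open E3Baux in
theorem E3_B : ∃ K0 : ℝ, ∀ n p : ℕ, p.Prime → 7 ≤ n → 2 * n ≤ p → 2 * p < 17 * n → 18 * n < p ^ 2 → ∀ μ : ℤ,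
    μ = 5 - (10 * ((12 * n / p : ℕ) : ℤ) - 10 * ((2 * n / p : ℕ) : ℤ)) →
    ((((25 * (n - 1) : ℕ) : ℤ) * μ + ∑ κ ∈ Kset n p, TT (4 - eeN p n κ - μ) : ℤ) : ℝ) ≤ EB n p + K0 := by
  refine ⟨10 ^ 8, ?_⟩
  intro n p hp hn hp2n hp5n hp2 μ hμ
  have hpn : n < 20 * p := by omega
  have hb := bound hp hn hpn (by omega) hp2 μ hμ
  have hn1 : 1 ≤ n := by omega
  have hP := P2 hn1 hp hpn
  have h12 := z12 hn1 hp hpn
  have hPz := Pz hn1 hp hpn
  have hp2n' : 2 * n < p := by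
    rcases hp2n.lt_or_eq with h | h
    · exact h
    · exfalso
      have h2 : 2 ∣ p := ⟨n, h.symm⟩
      have := (Nat.prime_dvd_prime_iff_eq Nat.prime_two hp).1 h2
      omega
  have hz1 : ∀ r, (cz1 n p r : ℤ) = 0 ∨ (cz1 n p r : ℤ) = 1 := by
    intro r
    have := Pool.Agent.H336R2.HD.E3_cnt_le_one p 1 (2 * n) r hp.pos (by omega)
    unfold cz1
    omega
  have hz2 : ∀ r, (cz2 n p r : ℤ) = 0 ∨ (cz2 n p r : ℤ) = 1 := by
    intro r
    have := Pool.Agent.H336R2.HD.E3_cnt_le_one p (16 * n) (18 * n - 1) r hp.pos (by omega)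
    unfold cz2
    omega
  have hs1 : ∑ r ∈ Finset.range p, (cz1 n p r : ℝ) = 2 * n := by
    have h := Pool.Agent.H336R2.HD.E3_sum_cnt p 1 (2 * n) hp.pos
    have h' : 2 * n + 1 - 1 = 2 * n := by omega
    rw [h'] at h
    unfold cz1
    exact_mod_cast h
  have hs2 : ∑ r ∈ Finset.range p, (cz2 n p r : ℝ) = 2 * n := by
    have h := Pool.Agent.H336R2.HD.E3_sum_cnt p (16 * n) (18 * n - 1) hp.pos
    have h' : 18 * n - 1 + 1 - 16 * n = 2 * n := by omega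
    rw [h'] at h
    unfold cz2
    exact_mod_cast h
  have hsum : ((∑ r ∈ Finset.range p, TT ((10 * (cP n p r : ℤ) - 5 * ((cz1 n p r : ℤ) + cz2 n p r)) - 1) : ℤ) : ℝ) ≤
      25 * ∑ r ∈ Finset.range p, (cP n p r : ℝ) ^ 2 - 25 * ∑ r ∈ Finset.range p, (cP n p r : ℝ) * (cz1 n p r + cz2 n p r)
      + 6 * (∑ r ∈ Finset.range p, (cz1 n p r : ℝ) + ∑ r ∈ Finset.range p, (cz2 n p r : ℝ))
      + 13 * ∑ r ∈ Finset.range p, (cz1 n p r : ℝ) * cz2 n p r := by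
    push_cast
    have : ∀ r ∈ Finset.range p, ((TT ((10 * (cP n p r : ℤ) - 5 * ((cz1 n p r : ℤ) + cz2 n p r)) - 1) : ℤ) : ℝ) ≤
        25 * (cP n p r : ℝ) ^ 2 - 25 * ((cP n p r : ℝ) * (cz1 n p r + cz2 n p r)) +
        6 * ((cz1 n p r : ℝ) + cz2 n p r) + 13 * ((cz1 n p r : ℝ) * cz2 n p r) := by
      intro r _
      exact_mod_cast small_ineq (cP n p r : ℤ) _ _ (hz1 r) (hz2 r)
    refine (Finset.sum_le_sum this).trans (le_of_eq ?_)
    simp only [Finset.sum_add_distrib, Finset.sum_sub_distrib, ← Finset.mul_sum]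
  have hbR : 2 * ((∑ κ ∈ Kset n p, TT (4 - eeN p n κ - μ) : ℤ) : ℝ) ≤
      ((∑ r ∈ Finset.range p, TT ((10 * (cP n p r : ℤ) - 5 * ((cz1 n p r : ℤ) + cz2 n p r)) - 1) : ℤ) : ℝ) + 2410 ^ 2 := by
    exact_mod_cast hb
  have ha : ((12 * n / p : ℕ) : ℝ) ≤ 240 := by
    have : 12 * n / p ≤ 240 := by
      apply Nat.div_le_of_le_mul
      nlinarith
    exact_mod_cast this
  have hb0 : ((2 * n / p : ℕ) : ℝ) = 0 := by
    rw [Nat.div_eq_of_lt hp2n']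
    simp
  have h6 : ((25 * (n - 1) : ℕ) : ℝ) = 25 * n - 25 := by
    rw [Nat.cast_mul, Nat.cast_sub (by omega)]
    push_cast
    ring
  have hμR : (μ : ℝ) = 5 - (10 * ((12 * n / p : ℕ) : ℝ) - 10 * ((2 * n / p : ℕ) : ℝ)) := by
    rw [hμ]
    simp only [Int.cast_sub, Int.cast_mul, Int.cast_natCast, Int.cast_ofNat]
  unfold EB
  rw [Int.cast_add, Int.cast_mul, Int.cast_natCast, h6, hμR, hb0]
  set a : ℝ := ((12 * n / p : ℕ) : ℝ)
  have e1 : (25 * (n : ℝ) - 25) * (5 - (10 * a - 10 * 0)) = 125 * n - 250 * n * a - 125 + 250 * a := by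
    ring
  rw [e1]
  linarith

end

end Pool.Agent.U795.Z7
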