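import Pool.Agent.U795.Z7.Defs

/-! # E3_C: the class sum for `17n/2 ≤ p < 13n` (after helper987, helper724) -/

open Polynomial Pool.Agent.H337R2

namespace Pool.Agent.U795.Z7

namespace E3Caux

lemma TT_mono {a b : ℤ} (h : a ≤ b) : TT a ≤ TT b := by
  unfold TT
  split_ifs with h1 h2 h2
  · exact Int.ediv_le_ediv (by norm_num) (by nlinarith)
  · omega
  · positivity
  · exact le_refl _

lemma TT_nonneg (a : ℤ) : 0 ≤ TT a := by
  unfold TT
  split_ifs
  · positivity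
  · exact le_refl _

lemma TT_14 : TT 14 = 56 := by unfold TT; norm_num

lemma TT_24 : TT 24 = 156 := by unfold TT; norm_num

/-- number of poles is at most two -/
lemma cnt_le_two {n p κ : ℕ} (hn : 1 ≤ n) (hp : 17 * n ≤ 2 * p) : cnt p (3 * n) (15 * n) κ ≤ 2 := by
  have hp0 : 0 < p := by omega
  have h := cnt_eq p (3 * n) (15 * n) κ hp0 (by omega)
  push_cast at h
  have hp' : (0 : ℤ) < p := by exact_mod_cast hp0
  have h1 := Int.emod_add_mul_ediv (15 * (n : ℤ) - κ) p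
  have h2 := Int.emod_nonneg (15 * (n : ℤ) - κ) hp'.ne'
  have h3 := Int.emod_add_mul_ediv (3 * (n : ℤ) - 1 - κ) p
  have h4 := Int.emod_lt_of_pos (3 * (n : ℤ) - 1 - κ) hp'
  have hpn : 17 * (n : ℤ) ≤ 2 * p := by exact_mod_cast hp
  have hn' : 1 ≤ (n : ℤ) := by exact_mod_cast hn
  by_contra hc
  push Not at hc
  have hc' : (3 : ℤ) ≤ (cnt p (3 * n) (15 * n) κ : ℤ) := by exact_mod_cast hc
  rw [h] at hc'
  set a := (15 * (n : ℤ) - κ) / p
  set b := (3 * (n : ℤ) - 1 - κ) / p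
  have h5 : (p : ℤ) * 3 ≤ p * (a - b) := mul_le_mul_of_nonneg_left hc' hp'.le
  have h6 : (p : ℤ) * (a - b) = p * a - p * b := by ring
  omega

/-- one pole only for `k < 3n+p` -/
lemma cnt_le_one {n p k : ℕ} (_hn : 1 ≤ n) (hp : 17 * n ≤ 2 * p) (hk1 : 2 * n + 1 + p ≤ k) (hk2 : k ≤ 15 * n)
    (hk3 : k < 3 * n + p) : cnt p (3 * n) (15 * n) (kap n p k) ≤ 1 := by
  have hp0 : 0 < p := by omega
  have hp' : (0 : ℤ) < p := by exact_mod_cast hp0
  unfold cnt
  have key : ∀ m : ℕ, 3 * n ≤ m → m ≤ 15 * n → (p : ℤ) ∣ (m : ℤ) - k → m = k := by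
    intro m hm1 hm2 hd
    obtain ⟨j, hj⟩ := hd
    have hj0 : j = 0 := by
      rcases lt_trichotomy j 0 with h | h | h
      · exfalso
        have h1 : (p : ℤ) * j ≤ p * (-1) := mul_le_mul_of_nonneg_left (by omega) hp'.le
        omega
      · exact h
      · exfalso
        have h1 : (p : ℤ) * 1 ≤ p * j := mul_le_mul_of_nonneg_left (by omega) hp'.le
        omega
    rw [hj0] at hj
    omega
  have hcase : kap n p k = k % p ∨ kap n p k = (18 * n - k) % p := by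
    unfold kap
    rcases le_total (k % p) ((18 * n - k) % p) with h | h
    · left; exact min_eq_left h
    · right; exact min_eq_right h
  rcases hcase with hc | hc
  · have hsub : (Finset.Icc (3 * n) (15 * n)).filter (fun m : ℕ => (p : ℤ) ∣ (m : ℤ) - (kap n p k : ℕ)) ⊆ {k} := by
      intro m hm
      rw [Finset.mem_filter, Finset.mem_Icc] at hm
      rw [Finset.mem_singleton]
      apply key m hm.1.1 hm.1.2
      have h1 := hm.2
      rw [hc] at h1
      have h2 : (p : ℤ) ∣ ((k % p : ℕ) : ℤ) - k := by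
        refine ⟨-((k / p : ℕ) : ℤ), ?_⟩
        have h3 := Nat.mod_add_div k p
        have h4 : (k : ℤ) = ((k % p : ℕ) : ℤ) + p * ((k / p : ℕ) : ℤ) := by exact_mod_cast h3.symm
        rw [h4]
        have h5 : ((((k % p : ℕ) : ℤ) + p * ((k / p : ℕ) : ℤ)) : ℤ) = (k : ℤ) := h4.symm
        linarith
      have h3 := dvd_add h1 h2
      have h4 : (m : ℤ) - ((k % p : ℕ) : ℤ) + (((k % p : ℕ) : ℤ) - k) = m - k := by ring
      rwa [h4] at h3
    exact (Finset.card_le_card hsub).trans (by simp)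
  · have hsub : (Finset.Icc (3 * n) (15 * n)).filter (fun m : ℕ => (p : ℤ) ∣ (m : ℤ) - (kap n p k : ℕ)) ⊆ {18 * n - k} := by
      intro m hm
      rw [Finset.mem_filter, Finset.mem_Icc] at hm
      rw [Finset.mem_singleton]
      have h1 := hm.2
      rw [hc] at h1
      have h2 : (p : ℤ) ∣ (((18 * n - k) % p : ℕ) : ℤ) - ((18 * n - k : ℕ) : ℤ) := by
        refine ⟨-(((18 * n - k) / p : ℕ) : ℤ), ?_⟩
        have h3 := Nat.mod_add_div (18 * n - k) p
        have h4 : ((18 * n - k : ℕ) : ℤ) = (((18 * n - k) % p : ℕ) : ℤ) + p * (((18 * n - k) / p : ℕ) : ℤ) := by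
          exact_mod_cast h3.symm
        linarith
      have h3 := dvd_add h1 h2
      have h5 : ((18 * n - k : ℕ) : ℤ) = 18 * n - k := by omega
      have h4 : (m : ℤ) - (((18 * n - k) % p : ℕ) : ℤ) + ((((18 * n - k) % p : ℕ) : ℤ) - ((18 * n - k : ℕ) : ℤ))
          = -(((18 * n - m : ℕ) : ℤ) - k) := by
        have h6 : ((18 * n - m : ℕ) : ℤ) = 18 * n - m := by omega
        rw [h5, h6]; ring
      rw [h4] at h3
      have h7 := key (18 * n - m) (by omega) (by omega) ((dvd_neg).1 h3)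
      omega
    exact (Finset.card_le_card hsub).trans (by simp)

lemma kap_refl {n p k : ℕ} (h1 : p ≤ k) (h2 : k ≤ 18 * n) : kap n p (18 * n + p - k) = kap n p k := by
  unfold kap
  have h3 : 18 * n + p - k = (18 * n - k) + p := by omega
  have h4 : 18 * n - (18 * n + p - k) = k - p := by omega
  rw [h4, h3, Nat.add_mod_right]
  have h5 : (k - p) % p = k % p := (Nat.mod_eq_sub_mod h1).symm
  rw [h5, min_comm]

end E3Caux

open E3Caux

theorem E3_C : ∃ K0 : ℝ, ∀ n p : ℕ, p.Prime → 7 ≤ n → 17 * n ≤ 2 * p → p < 13 * n → 18 * n < p ^ 2 → ∀ μ : ℤ,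
    μ = - (10 * ((12 * n / p : ℕ) : ℤ)) →
    ((((25 * (n - 1) : ℕ) : ℤ) * μ + ∑ κ ∈ Kfull n p, TT (4 - eeN p n κ - μ) : ℤ) : ℝ) ≤ EC n p + K0 := by
  refine ⟨5000, ?_⟩
  intro n p hp hn h5 h7 _ μ hμ
  have hp0 : 0 < p := hp.pos
  have h2n : 2 * n / p = 0 := Nat.div_eq_of_lt (by omega)
  -- the exponent
  have hexp : ∀ κ, 4 - eeN p n κ - μ ≤ 4 + 10 * (cnt p (3 * n) (15 * n) κ : ℤ) := by
    intro κ
    unfold eeN ee n1 nq
    rw [hμ, h2n]
    have e1 : 18 * n - 3 * n = 15 * n := by omega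
    simp only [List.map_cons, List.map_nil, List.sum_cons, List.sum_nil, e1]
    have e2 : (18 - 2 * 3) * n / p = 12 * n / p := by norm_num
    rw [e2]
    push_cast
    have e3 : (0 : ℤ) ≤ (cnt p 1 (2 * n) κ : ℤ) := by positivity
    have e4 : (0 : ℤ) ≤ (cnt p (18 * n - 2 * n) (18 * n - 1) κ : ℤ) := by positivity
    linarith
  have hTle2 : ∀ κ, TT (4 - eeN p n κ - μ) ≤ 156 := by
    intro κ
    rw [← TT_24]
    apply TT_mono
    have h := cnt_le_two (κ := κ) (by omega : 1 ≤ n) h5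
    have h' := hexp κ
    omega
  set S1 : Finset ℕ := (Finset.Icc (2 * n + 1 + p) (min (15 * n) (3 * n + p - 1))).image (kap n p) with hS1
  set S2 : Finset ℕ := (Finset.Icc (3 * n + p) (15 * n)).image (kap n p) with hS2
  set S3 : Finset ℕ := (Finset.Icc (3 * n + p) ((18 * n + p) / 2)).image (kap n p) with hS3
  have hsub : Kfull n p ⊆ S1 ∪ S2 := by
    intro κ hκ
    unfold Kfull at hκ
    rw [Finset.mem_image] at hκ
    obtain ⟨k, hk, rfl⟩ := hκ
    rw [Finset.mem_Icc] at hk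
    rw [Finset.mem_union]
    by_cases h : k < 3 * n + p
    · left
      exact Finset.mem_image.2 ⟨k, Finset.mem_Icc.2 ⟨hk.1, by omega⟩, rfl⟩
    · right
      exact Finset.mem_image.2 ⟨k, Finset.mem_Icc.2 ⟨by omega, hk.2⟩, rfl⟩
  have hsum1 : ∑ κ ∈ Kfull n p, TT (4 - eeN p n κ - μ) ≤
      ∑ κ ∈ S1, TT (4 - eeN p n κ - μ) + ∑ κ ∈ S2, TT (4 - eeN p n κ - μ) := by
    refine (Finset.sum_le_sum_of_subset_of_nonneg hsub (fun _ _ _ => TT_nonneg _)).trans ?_
    have := Finset.sum_union_inter (s₁ := S1) (s₂ := S2) (f := fun κ => TT (4 - eeN p n κ - μ))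
    have h0 : 0 ≤ ∑ κ ∈ S1 ∩ S2, TT (4 - eeN p n κ - μ) := Finset.sum_nonneg (fun _ _ => TT_nonneg _)
    linarith
  have hsumS1 : ∑ κ ∈ S1, TT (4 - eeN p n κ - μ) ≤ 56 * (S1.card : ℤ) := by
    have : ∑ κ ∈ S1, TT (4 - eeN p n κ - μ) ≤ ∑ κ ∈ S1, (56 : ℤ) := by
      apply Finset.sum_le_sum
      intro κ hκ
      rw [hS1, Finset.mem_image] at hκ
      obtain ⟨k, hk, rfl⟩ := hκ
      rw [Finset.mem_Icc] at hk
      rw [← TT_14]
      apply TT_mono
      have h := cnt_le_one (by omega : 1 ≤ n) h5 hk.1 (by omega) (by omega : k < 3 * n + p)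
      have h' := hexp (kap n p k)
      omega
    refine this.trans ?_
    rw [Finset.sum_const, nsmul_eq_mul, mul_comm]
  have hsumS2 : ∑ κ ∈ S2, TT (4 - eeN p n κ - μ) ≤ 156 * (S2.card : ℤ) := by
    have : ∑ κ ∈ S2, TT (4 - eeN p n κ - μ) ≤ ∑ κ ∈ S2, (156 : ℤ) := by
      apply Finset.sum_le_sum
      intro κ _
      exact hTle2 κ
    refine this.trans ?_
    rw [Finset.sum_const, nsmul_eq_mul, mul_comm]
  have hcS1 : S1.card ≤ min (15 * n) (3 * n + p - 1) + 1 - (2 * n + 1 + p) := by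
    refine Finset.card_image_le.trans ?_
    rw [Nat.card_Icc]
  have hcS2 : S2.card ≤ (18 * n + p) / 2 + 1 - (3 * n + p) := by
    have h1 : S2 ⊆ S3 := by
      intro κ hκ
      rw [hS2, Finset.mem_image] at hκ
      obtain ⟨k, hk, rfl⟩ := hκ
      rw [Finset.mem_Icc] at hk
      rw [hS3, Finset.mem_image]
      by_cases h : k ≤ (18 * n + p) / 2
      · exact ⟨k, Finset.mem_Icc.2 ⟨hk.1, h⟩, rfl⟩
      · refine ⟨18 * n + p - k, Finset.mem_Icc.2 ⟨by omega, by omega⟩, kap_refl (by omega) (by omega)⟩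
    refine (Finset.card_le_card h1).trans (Finset.card_image_le.trans ?_)
    rw [Nat.card_Icc]
  have h6n : (((25 * (n - 1) : ℕ) : ℤ)) = 25 * n - 25 := by omega
  rw [h6n]
  unfold EC tn
  by_cases h6 : p ≤ 12 * n
  · -- p ≤ 12n
    have hdiv : 12 * n / p = 1 := by
      rw [Nat.div_eq_iff hp0]; omega
    have hμ' : μ = -10 := by rw [hμ, hdiv]; norm_num
    have e1 : ((12 * n - 1 * p : ℕ) : ℝ) = 12 * n - p := by
      rw [one_mul, Nat.cast_sub h6]; push_cast; ring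
    have e2 : ((13 * n - 1 * p : ℕ) : ℝ) = 13 * n - p := by
      rw [one_mul, Nat.cast_sub (by omega)]; push_cast; ring
    rw [e1, e2, hdiv]
    have hc1 : (S1.card : ℤ) ≤ n := by omega
    have hc2 : 2 * (S2.card : ℤ) ≤ 12 * n - p + 2 := by omega
    have hfin : (25 * (n : ℤ) - 25) * μ + ∑ κ ∈ Kfull n p, TT (4 - eeN p n κ - μ) ≤
        -250 * n + 250 + 56 * n + 78 * (12 * n - p) + 156 := by
      have : (25 * (n : ℤ) - 25) * μ = -250 * n + 250 := by rw [hμ']; ring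
      rw [this]
      linarith
    have hfinR : (((25 * (n : ℤ) - 25) * μ + ∑ κ ∈ Kfull n p, TT (4 - eeN p n κ - μ) : ℤ) : ℝ) ≤
        ((-250 * n + 250 + 56 * n + 78 * (12 * n - p) + 156 : ℤ) : ℝ) := by exact_mod_cast hfin
    refine hfinR.trans ?_
    push_cast
    linarith
  · have hdiv : 12 * n / p = 0 := Nat.div_eq_of_lt (by omega)
    have hμ' : μ = 0 := by rw [hμ, hdiv]; norm_num
    have e1 : ((12 * n - 1 * p : ℕ) : ℝ) = 0 := by
      rw [one_mul, Nat.sub_eq_zero_of_le (by omega)]; simp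
    have e2 : ((13 * n - 1 * p : ℕ) : ℝ) = 13 * n - p := by
      rw [one_mul, Nat.cast_sub (by omega)]; push_cast; ring
    rw [e1, e2, hdiv]
    have hc1 : (S1.card : ℤ) ≤ 13 * n - p := by omega
    have hc2 : (S2.card : ℤ) ≤ 1 := by omega
    have hfin : (25 * (n : ℤ) - 25) * μ + ∑ κ ∈ Kfull n p, TT (4 - eeN p n κ - μ) ≤
        56 * (13 * n - p) + 156 := by
      have : (25 * (n : ℤ) - 25) * μ = 0 := by rw [hμ']; ring
      rw [this]
      linarith
    have hfinR : (((25 * (n : ℤ) - 25) * μ + ∑ κ ∈ Kfull n p, TT (4 - eeN p n κ - μ) : ℤ) : ℝ) ≤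
        ((56 * (13 * n - p) + 156 : ℤ) : ℝ) := by exact_mod_cast hfin
    refine hfinR.trans ?_
    push_cast
    linarith

end Pool.Agent.U795.Z7
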