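import Pool.Agent.U795.Z7.DefsG

/-! # Midpoint and trapezoid inequalities on the slanted contour -/

open Polynomial Pool.Agent.H337R2 Filter Topology

namespace Pool.Agent.U795.Z7

noncomputable section

lemma G1m_qd_nonneg (w r : ℝ) : 0 ≤ qd w r := by
  unfold qd
  positivity

lemma G1m_pair (M d r : ℝ) (hr : 0 ≤ r) (hM : 0 ≤ M) (hd : d ^ 2 ≤ M ^ 2) :
    qd (M - d) r * qd (M + d) r ≤ qd M r ^ 2 := by
  have h : qd M r ^ 2 - qd (M - d) r * qd (M + d) r = d ^ 2 * (2 * M ^ 2 + 4 * M * r - d ^ 2) := by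
    unfold qd
    ring
  have h2 : 0 ≤ d ^ 2 * (2 * M ^ 2 + 4 * M * r - d ^ 2) := by
    apply mul_nonneg (sq_nonneg d)
    nlinarith [mul_nonneg hM hr, sq_nonneg M]
  linarith

/-- midpoint inequality: `w ↦ log |w + r(1+i)|` is concave on `w ≥ 0` -/
theorem G1_mid (A : ℝ) (L : ℕ) (r : ℝ) (hA : 0 ≤ A) (hr : 0 ≤ r) :
    ∏ j ∈ Finset.range L, qd (A + j + 1 / 2) r ≤ qd (A + L / 2) r ^ L := by
  have hsq : (∏ j ∈ Finset.range L, qd (A + j + 1 / 2) r) ^ 2 ≤ (qd (A + L / 2) r ^ L) ^ 2 := by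
    have e1 : ∏ j ∈ Finset.range L, qd (A + (j : ℝ) + 1 / 2) r
        = ∏ j ∈ Finset.range L, qd (A + ((L - 1 - j : ℕ) : ℝ) + 1 / 2) r :=
      (Finset.prod_range_reflect (fun j : ℕ => qd (A + (j : ℝ) + 1 / 2) r) L).symm
    have e2 : (∏ j ∈ Finset.range L, qd (A + (j : ℝ) + 1 / 2) r) ^ 2
        = ∏ j ∈ Finset.range L, (qd (A + ((L - 1 - j : ℕ) : ℝ) + 1 / 2) r * qd (A + (j : ℝ) + 1 / 2) r) := by
      rw [Finset.prod_mul_distrib, ← e1, sq]
    have e3 : (qd (A + L / 2) r ^ L) ^ 2 = ∏ j ∈ Finset.range L, qd (A + L / 2) r ^ 2 := by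
      rw [Finset.prod_const, Finset.card_range, ← pow_mul, ← pow_mul, mul_comm]
    rw [e2, e3]
    apply Finset.prod_le_prod
    · intro j _
      exact mul_nonneg (G1m_qd_nonneg _ _) (G1m_qd_nonneg _ _)
    · intro j hj
      have hjL : j < L := Finset.mem_range.mp hj
      have hc : ((L - 1 - j : ℕ) : ℝ) = (L : ℝ) - 1 - j := by
        rw [Nat.cast_sub (by omega), Nat.cast_sub (by omega)]
        simp
      have hj1 : (j : ℝ) + 1 ≤ L := by exact_mod_cast hjL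
      have hj0 : (0 : ℝ) ≤ j := Nat.cast_nonneg j
      have hL0 : (0 : ℝ) ≤ L := Nat.cast_nonneg L
      have a1 : A + ((L - 1 - j : ℕ) : ℝ) + 1 / 2 = (A + L / 2) - ((j : ℝ) + 1 / 2 - L / 2) := by
        rw [hc]; ring
      have a2 : A + (j : ℝ) + 1 / 2 = (A + L / 2) + ((j : ℝ) + 1 / 2 - L / 2) := by ring
      rw [a1, a2]
      apply G1m_pair _ _ _ hr (by positivity)
      apply sq_le_sq'
      · linarith
      · linarith
  exact le_of_sq_le_sq hsq (pow_nonneg (G1m_qd_nonneg _ _) _)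

lemma G1m_mono (a b r : ℝ) (ha : 0 ≤ a) (hab : a ≤ b) (hr : 0 ≤ r) : qd a r ≤ qd b r := by
  unfold qd
  have : (a + r) ^ 2 ≤ (b + r) ^ 2 := pow_le_pow_left₀ (by linarith) (by linarith) 2
  linarith

lemma G1m_split (A s u r : ℝ) (hA : 0 ≤ A) (hs : 0 ≤ s) (hu : 0 ≤ u) (hr : 0 ≤ r) :
    qd A r * qd (A + s + u) r ≤ qd (A + s) r * qd (A + u) r := by
  have h : qd (A + s) r * qd (A + u) r - qd A r * qd (A + s + u) r
      = 2 * (s * u) * (A ^ 2 + 2 * A * r + (A + r) * (s + u)) + (s * u) ^ 2 := by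
    unfold qd
    ring
  have h2 : 0 ≤ 2 * (s * u) * (A ^ 2 + 2 * A * r + (A + r) * (s + u)) + (s * u) ^ 2 := by positivity
  linarith

lemma G1m_pair2 (A x y r : ℝ) (L : ℝ) (hA : 0 ≤ A) (hr : 0 ≤ r) (hL : 0 ≤ L) (hx : A ≤ x) (hy : A ≤ y)
    (hxy : 2 * A + L ≤ x + y) : qd A r * qd (A + L) r ≤ qd x r * qd y r := by
  rcases le_total (A + L) x with h | h
  · calc qd A r * qd (A + L) r ≤ qd y r * qd x r :=
        mul_le_mul (G1m_mono A y r hA hy hr) (G1m_mono (A + L) x r (by linarith) h hr)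
          (G1m_qd_nonneg _ _) (G1m_qd_nonneg _ _)
      _ = qd x r * qd y r := mul_comm _ _
  · have h1 := G1m_split A (x - A) (A + L - x) r hA (by linarith) (by linarith) hr
    have e1 : A + (x - A) + (A + L - x) = A + L := by ring
    have e2 : A + (x - A) = x := by ring
    rw [e1, e2] at h1
    refine h1.trans ?_
    exact mul_le_mul_of_nonneg_left (G1m_mono _ _ r (by linarith) (by linarith) hr) (G1m_qd_nonneg _ _)

/-- trapezoid inequality -/
theorem G1_trap (A θ : ℝ) (L : ℕ) (r : ℝ) (hA : 0 < A) (hr : 0 ≤ r) (hθ : 1 / 2 ≤ θ) :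
    (qd A r * qd (A + L) r) ^ L ≤ (∏ j ∈ Finset.range L, qd (A + j + θ) r) ^ 2 := by
  have e1 : ∏ j ∈ Finset.range L, qd (A + (j : ℝ) + θ) r
      = ∏ j ∈ Finset.range L, qd (A + ((L - 1 - j : ℕ) : ℝ) + θ) r :=
    (Finset.prod_range_reflect (fun j : ℕ => qd (A + (j : ℝ) + θ) r) L).symm
  have e2 : (∏ j ∈ Finset.range L, qd (A + (j : ℝ) + θ) r) ^ 2
      = ∏ j ∈ Finset.range L, (qd (A + ((L - 1 - j : ℕ) : ℝ) + θ) r * qd (A + (j : ℝ) + θ) r) := by
    rw [Finset.prod_mul_distrib, ← e1, sq]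
  have e3 : (qd A r * qd (A + L) r) ^ L = ∏ j ∈ Finset.range L, (qd A r * qd (A + L) r) := by
    rw [Finset.prod_const, Finset.card_range]
  rw [e2, e3]
  apply Finset.prod_le_prod
  · intro j _
    exact mul_nonneg (G1m_qd_nonneg _ _) (G1m_qd_nonneg _ _)
  · intro j hj
    have hjL : j < L := Finset.mem_range.mp hj
    have hc : ((L - 1 - j : ℕ) : ℝ) = (L : ℝ) - 1 - j := by
      rw [Nat.cast_sub (by omega), Nat.cast_sub (by omega)]
      simp
    have hj1 : (j : ℝ) + 1 ≤ L := by exact_mod_cast hjL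
    have hj0 : (0 : ℝ) ≤ j := Nat.cast_nonneg j
    have hL0 : (0 : ℝ) ≤ L := Nat.cast_nonneg L
    apply G1m_pair2 A _ _ r (L : ℝ) hA.le hr hL0
    · rw [hc]; linarith
    · linarith
    · rw [hc]; linarith

end

end Pool.Agent.U795.Z7
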