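import Pool.Agent.U795.Z7.G3L

set_option autoImplicit false

/-! # G3C: numerical certificate (break points in units of `1/80`) -/

namespace Pool.Agent.U795.Z7

namespace G3C

open G3L

/-- break points -/
def br : List ℕ :=
  [30, 64, 109, 157, 217, 300, 404, 520, 618, 704, 799, 941, 1133, 1227, 1298, 1366, 1466, 1671,
   1839, 1929, 2009, 2099, 2260, 2493, 2572, 2642, 2704, 2780, 2940, 3186, 3264, 3334, 3400,
   3501, 3657, 3964, 4060, 4158, 4243, 4327, 4451, 4718, 4955, 5058, 5164, 5261, 5373, 5561,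
   5837, 5929, 6012, 6086, 6157, 6273, 6538, 6586, 6658, 6750, 6851, 6950, 7087, 7361, 7487,
   7598, 7726, 7845, 7944, 8041, 8187, 8553, 9046, 9209, 9356, 9483, 9606, 9807, 10267, 10959,
   11207, 11465, 11720, 12049, 12713, 14470, 19530, 35300, 100327, 200000]

theorem c1 : chkL PL1 stC lt2 (0 :: br) = true := by
  decide +kernel

theorem c2 : chkT PL1 stC lt2 ((0 :: br).getLast (by simp)) 2 = true := by
  decide +kernel

end G3C

theorem G3_C (s : ℕ) (hs : s ≤ 6) (ρ : ℝ) (hρ : 0 ≤ ρ) :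
    2 ^ 38000 * (Real.exp (-(314 / 25) * ρ) * GZ2 ρ * ∏ s' ∈ Finset.range s, Q2 s' ρ) ≤ 2 ^ t2 s * GP1 ρ :=
  G3L.mainC G3C.br (by simp [G3C.br]) G3C.c1 G3C.c2 s hs ρ hρ

end Pool.Agent.U795.Z7
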