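import Pool.Agent.U795.Z7.DefsS

/-!
# Task G5: the numerical value of the archimedean constant

Written by helper847, after the file of helper496 for `H343Z`.
-/

namespace Pool.Agent.U795.Z7

theorem G5_log3 : 53 * Real.log 3 ≤ 84 * Real.log 2 + ((3 : ℝ) ^ 53 / 2 ^ 84 - 1) := by
  have h : Real.log ((3 : ℝ) ^ 53 / 2 ^ 84) = 53 * Real.log 3 - 84 * Real.log 2 := by
    rw [Real.log_div (by positivity) (by positivity), Real.log_pow, Real.log_pow]
    norm_num
  have h1 := Real.log_le_sub_one_of_pos (show (0 : ℝ) < (3 : ℝ) ^ 53 / 2 ^ 84 by positivity)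
  linarith

theorem G5_JJ : JJ ≤ 7006 / 10 := by
  have h2 := Real.log_two_lt_d9
  have h3 := G5_log3
  have h288 : Real.log 288 = 5 * Real.log 2 + 2 * Real.log 3 := by
    rw [show (288 : ℝ) = 2 ^ 5 * 3 ^ 2 by norm_num, Real.log_mul (by norm_num) (by norm_num),
      Real.log_pow, Real.log_pow]
    norm_num
  have h48 : Real.log 48 = 4 * Real.log 2 + Real.log 3 := by
    rw [show (48 : ℝ) = 2 ^ 4 * 3 by norm_num, Real.log_mul (by norm_num) (by norm_num),
      Real.log_pow]
    norm_num
  have h24 : Real.log 24 = 3 * Real.log 2 + Real.log 3 := by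
    rw [show (24 : ℝ) = 2 ^ 3 * 3 by norm_num, Real.log_mul (by norm_num) (by norm_num),
      Real.log_pow]
    norm_num
  unfold JJ Lam
  rw [h288, h48, h24]
  norm_num at h3 h2 ⊢
  linarith

end Pool.Agent.U795.Z7
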