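import Pool.Agent.U795.Z7.Defs

/-!
# Task H2: principal coefficients in the classes `±r`
-/

open Polynomial Pool.Agent.H337R2

namespace Pool.Agent.U795.Z7

noncomputable section

namespace H2aux

set_option linter.unusedSectionVars false

variable {p : ℕ} [hp : Fact p.Prime]

lemma PB_add {ρ A : ℚ} {f g : PowerSeries ℚ} (hf : PB p ρ A f) (hg : PB p ρ A g) :
    PB p ρ A (f + g) := by
  intro j
  rw [map_add]
  exact padicNorm.nonarchimedean.trans (max_le (hf j) (hg j))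

/-- unit congruence -/
def UC (p : ℕ) (f : PowerSeries ℚ) (a : ℚ) : Prop :=
  padicNorm p a = 1 ∧ PB p (p : ℚ) 1 f ∧ PB p (p : ℚ) (p : ℚ)⁻¹ (f - PowerSeries.C a)

lemma UC.mul {f g : PowerSeries ℚ} {a b : ℚ} (hf : UC p f a) (hg : UC p g b) :
    UC p (f * g) (a * b) := by
  have hp0 : (0 : ℚ) ≤ p := p_pos'.le
  have hinv : (0 : ℚ) ≤ (p : ℚ)⁻¹ := inv_nonneg.2 hp0
  refine ⟨by rw [padicNorm.mul, hf.1, hg.1, one_mul], ?_, ?_⟩
  · have := PB.mul hp0 zero_le_one zero_le_one hf.2.1 hg.2.1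
    rwa [one_mul] at this
  · have h1 := PB.mul hp0 hinv zero_le_one hf.2.2 hg.2.1
    have h2 := PB.mul hp0 zero_le_one hinv (PB.C (p := p) hp0 zero_le_one hf.1.le) hg.2.2
    rw [mul_one] at h1
    rw [one_mul] at h2
    have h3 := PB_add h1 h2
    have h4 : f * g - PowerSeries.C (a * b) =
        (f - PowerSeries.C a) * g + PowerSeries.C a * (g - PowerSeries.C b) := by
      rw [map_mul]; ring
    rw [h4]
    exact h3

lemma UC.one : UC p 1 1 := by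
  have hp0 : (0 : ℚ) ≤ p := p_pos'.le
  refine ⟨padicNorm.one, PB.one hp0, ?_⟩
  intro j
  rw [map_one, sub_self, map_zero, padicNorm.zero]
  positivity

lemma UC.pow {f : PowerSeries ℚ} {a : ℚ} (hf : UC p f a) (n : ℕ) : UC p (f ^ n) (a ^ n) := by
  induction n with
  | zero => simpa using UC.one
  | succ n ih => rw [pow_succ, pow_succ]; exact ih.mul hf

lemma UC.prod {ι : Type*} (s : Finset ι) (f : ι → PowerSeries ℚ) (a : ι → ℚ)
    (h : ∀ i ∈ s, UC p (f i) (a i)) : UC p (∏ i ∈ s, f i) (∏ i ∈ s, a i) := by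
  classical
  induction s using Finset.induction_on with
  | empty => simpa using UC.one
  | insert x s hx ih =>
    rw [Finset.prod_insert hx, Finset.prod_insert hx]
    exact (h x (Finset.mem_insert_self _ _)).mul
      (ih fun i hi => h i (Finset.mem_insert_of_mem hi))

lemma norm_int_one {a : ℤ} (h : ¬ (p : ℤ) ∣ a) : padicNorm p (a : ℚ) = 1 :=
  (padicNorm.int_eq_one_iff a).2 h

lemma norm_int_dvd {a : ℤ} (h : (p : ℤ) ∣ a) : padicNorm p (a : ℚ) ≤ (p : ℚ)⁻¹ := by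
  have := (padicNorm.dvd_iff_norm_le (p := p) (n := 1) (z := a)).1 (by simpa using h)
  simpa using this

lemma UC.lin {a a0 : ℤ} {q q0 : ℚ} (hq : q = a) (hq0 : q0 = a0) (h0 : ¬ (p : ℤ) ∣ a0)
    (h : (p : ℤ) ∣ a - a0) : UC p (PowerSeries.X + PowerSeries.C q) q0 := by
  subst hq hq0
  have hp0 : (0 : ℚ) ≤ p := p_pos'.le
  have hp1 : (1 : ℚ) ≤ p := p_one'
  have hinv : (0 : ℚ) ≤ (p : ℚ)⁻¹ := inv_nonneg.2 hp0
  refine ⟨norm_int_one h0, ?_, ?_⟩
  · exact PB.linX hp0 zero_le_one (padicNorm.of_int a) (by simpa using hp1)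
  · have h1 : (PowerSeries.X + PowerSeries.C (a : ℚ) - PowerSeries.C (a0 : ℚ) : PowerSeries ℚ) =
        PowerSeries.X + PowerSeries.C ((a - a0 : ℤ) : ℚ) := by
      push_cast
      rw [map_sub]; ring
    rw [h1]
    exact PB.linX hp0 hinv (norm_int_dvd h) (by rw [inv_mul_cancel₀ p_pos'.ne'])

lemma UC.iv {a a0 : ℤ} {q q0 : ℚ} (hq : q = a) (hq0 : q0 = a0) (h0 : ¬ (p : ℤ) ∣ a0)
    (h : (p : ℤ) ∣ a - a0) : UC p (iv q) q0⁻¹ := by
  subst hq hq0
  have hp0 : (0 : ℚ) ≤ p := p_pos'.le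
  have hp1 : (1 : ℚ) ≤ p := p_one'
  have hpp : (0 : ℚ) < p := p_pos'
  have hinv : (0 : ℚ) ≤ (p : ℚ)⁻¹ := inv_nonneg.2 hp0
  have ha : ¬ (p : ℤ) ∣ a := fun h' => h0 (by
    have := dvd_sub h' h
    rwa [sub_sub_cancel] at this)
  have na := norm_int_one ha
  have na0 := norm_int_one h0
  have ha' : (a : ℚ) ≠ 0 := by
    intro h'; rw [h', padicNorm.zero] at na; exact zero_ne_one na
  have ha0' : (a0 : ℚ) ≠ 0 := by
    intro h'; rw [h', padicNorm.zero] at na0; exact zero_ne_one na0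
  have nai : padicNorm p ((a0 : ℚ)⁻¹) = 1 := by
    rw [inv_eq_one_div, padicNorm.div, padicNorm.one, na0, div_one]
  refine ⟨nai, ?_, ?_⟩
  · apply PB.iv ha'
    · rw [na, inv_one]
    · rw [na, inv_one]; exact hp1
  · intro j
    rw [map_sub, PowerSeries.coeff_C]
    simp only [Pool.Agent.H337R2.iv, PowerSeries.coeff_mk]
    rcases Nat.eq_zero_or_pos j with hj | hj
    · subst hj
      simp only [if_true, pow_zero, zero_add, pow_one, mul_one]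
      have h2 : (1 : ℚ) / a - (a0 : ℚ)⁻¹ = (-(((a - a0 : ℤ)) : ℚ)) / (a * a0) := by
        push_cast
        field_simp
        ring
      rw [h2, padicNorm.div, padicNorm.neg, padicNorm.mul, na, na0, one_mul, div_one]
      exact norm_int_dvd h
    · rw [if_neg (by omega), sub_zero, padicNorm.div, padicNorm_pow', padicNorm_pow', na, one_pow,
        div_one, padicNorm.neg, padicNorm.one, one_pow]
      obtain ⟨l, rfl⟩ : ∃ l, j = l + 1 := ⟨j - 1, by omega⟩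
      rw [pow_succ, mul_comm ((p : ℚ) ^ l) p, ← mul_assoc, inv_mul_cancel₀ hpp.ne', one_mul]
      exact one_le_pow₀ hp1

lemma coeff_mul_UC {F G : PowerSeries ℚ} {a A : ℚ} (hA : 0 ≤ A) (hF : PB p (p : ℚ) A F)
    (hG : UC p G a) (l : ℕ) :
    padicNorm p (PowerSeries.coeff l (F * G) - PowerSeries.coeff l F * a) ≤
      A * (p : ℚ)⁻¹ * (p : ℚ) ^ l := by
  have hp0 : (0 : ℚ) ≤ p := p_pos'.le
  have hinv : (0 : ℚ) ≤ (p : ℚ)⁻¹ := inv_nonneg.2 hp0
  have h1 := PB.mul hp0 hA hinv hF hG.2.2 l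
  have h2 : PowerSeries.coeff l (F * G) - PowerSeries.coeff l F * a =
      PowerSeries.coeff l (F * (G - PowerSeries.C a)) := by
    rw [mul_sub, map_sub, PowerSeries.coeff_mul_C]
  rw [h2]
  exact h1

/-! ### rescaling -/

lemma lin_rescale (hp0 : (p : ℚ) ≠ 0) (a : ℚ) : (PowerSeries.X + PowerSeries.C (a * p) : PowerSeries ℚ) =
    PowerSeries.C (p : ℚ) * PowerSeries.rescale ((p : ℚ)⁻¹) (PowerSeries.X + PowerSeries.C a) := by
  ext j
  rw [PowerSeries.coeff_C_mul, PowerSeries.coeff_rescale, map_add, map_add, PowerSeries.coeff_C,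
    PowerSeries.coeff_C, PowerSeries.coeff_X]
  rcases j with _ | _ | j
  · simp; ring
  · simp [hp0]
  · simp

lemma iv_rescale (hp0 : (p : ℚ) ≠ 0) (a : ℚ) : iv (a * p) =
    PowerSeries.C ((p : ℚ)⁻¹) * PowerSeries.rescale ((p : ℚ)⁻¹) (iv a) := by
  ext j
  rw [PowerSeries.coeff_C_mul, PowerSeries.coeff_rescale]
  simp only [iv, PowerSeries.coeff_mk]
  rw [mul_pow, pow_succ (p : ℚ) j]
  by_cases ha : a = 0
  · subst ha; simp
  field_simp
  rw [← mul_pow, mul_one_div_cancel hp0, one_pow]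

/-- the exact part -/
def Fx (p : ℕ) (j e : ℕ) : PowerSeries ℚ :=
  ((PowerSeries.X + PowerSeries.C (-(j : ℚ) * p)) * (PowerSeries.X + PowerSeries.C ((1 - (j : ℚ)) * p)) *
    (PowerSeries.X + PowerSeries.C ((16 - (j : ℚ)) * p)) *
    (PowerSeries.X + PowerSeries.C ((17 - (j : ℚ)) * p))) ^ 5 *
  (∏ b ∈ (Finset.Icc 3 14).erase j, iv (((b : ℚ) - j) * p) ^ 10) *
  (PowerSeries.X + PowerSeries.C (-(j : ℚ) * p)) ^ e

lemma Fx_eq (hp0 : (p : ℚ) ≠ 0) {j : ℕ} (hj3 : 3 ≤ j) (hj8 : j ≤ 14) (e : ℕ) : Fx p j e =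
    PowerSeries.C ((p : ℚ) ^ 20 * ((p : ℚ)⁻¹) ^ 110 * (p : ℚ) ^ e) *
      PowerSeries.rescale ((p : ℚ)⁻¹) (ser j e) := by
  have hcard : ((Finset.Icc 3 14).erase j).card = 11 := by
    rw [Finset.card_erase_of_mem (by rw [Finset.mem_Icc]; omega)]; rfl
  have hprod : ∏ b ∈ (Finset.Icc 3 14).erase j, iv (((b : ℚ) - j) * p) ^ 10 =
      PowerSeries.C ((p : ℚ)⁻¹) ^ 110 * PowerSeries.rescale ((p : ℚ)⁻¹)
        (∏ b ∈ (Finset.Icc 3 14).erase j, iv ((b : ℚ) - j) ^ 10) := by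
    rw [map_prod]
    have h1 : PowerSeries.C ((p : ℚ)⁻¹) ^ 110 =
        ∏ b ∈ (Finset.Icc 3 14).erase j, (PowerSeries.C ((p : ℚ)⁻¹) ^ 10 : PowerSeries ℚ) := by
      rw [Finset.prod_const, hcard, ← pow_mul]
    rw [h1, ← Finset.prod_mul_distrib]
    apply Finset.prod_congr rfl
    intro b _
    rw [iv_rescale hp0, mul_pow, map_pow]
  unfold Fx ser
  rw [hprod, lin_rescale hp0, lin_rescale hp0, lin_rescale hp0, lin_rescale hp0]
  generalize (∏ b ∈ (Finset.Icc 3 14).erase j, iv ((b : ℚ) - j) ^ 10) = PI0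
  simp only [map_mul, map_pow]
  ring

lemma Fx_coeff (hp0 : (p : ℚ) ≠ 0) {j : ℕ} (hj3 : 3 ≤ j) (hj8 : j ≤ 14) (e l : ℕ) :
    PowerSeries.coeff l (Fx p j e) =
    (p : ℚ) ^ 20 * ((p : ℚ)⁻¹) ^ 110 * (p : ℚ) ^ e * (((p : ℚ)⁻¹) ^ l * PowerSeries.coeff l (ser j e)) := by
  rw [Fx_eq hp0 hj3 hj8, PowerSeries.coeff_C_mul, PowerSeries.coeff_rescale]

lemma norm_mul_p (a : ℤ) : padicNorm p ((a : ℚ) * p) ≤ (p : ℚ)⁻¹ := by
  have := norm_int_dvd (p := p) (a := a * p) (Dvd.intro_left _ rfl)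
  push_cast at this
  exact this

lemma PB_linp (a : ℤ) {q : ℚ} (hq : q = a) :
    PB p (p : ℚ) (p : ℚ)⁻¹ (PowerSeries.X + PowerSeries.C (q * p)) := by
  subst hq
  have hp0 : (0 : ℚ) ≤ p := p_pos'.le
  exact PB.linX hp0 (inv_nonneg.2 hp0) (norm_mul_p a) (by rw [inv_mul_cancel₀ p_pos'.ne'])

lemma PB_ivp {a : ℤ} {q : ℚ} (hq : q = a) (h0 : ¬ (p : ℤ) ∣ a) :
    PB p (p : ℚ) (p : ℚ) (iv (q * p)) := by
  subst hq
  have na := norm_int_one h0
  have ha' : (a : ℚ) ≠ 0 := by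
    intro h'; rw [h', padicNorm.zero] at na; exact zero_ne_one na
  have hn : (padicNorm p ((a : ℚ) * p))⁻¹ = p := by
    rw [padicNorm.mul, na, one_mul, padicNorm.padicNorm_p_of_prime, inv_inv]
  apply PB.iv (mul_ne_zero ha' p_pos'.ne')
  · rw [hn]
  · rw [hn]

lemma Fx_PB (hp30 : 110 ≤ p) {j : ℕ} (hj3 : 3 ≤ j) (hj8 : j ≤ 14) (e : ℕ) :
    PB p (p : ℚ) (((p : ℚ)⁻¹) ^ 20 * (p : ℚ) ^ 110 * ((p : ℚ)⁻¹) ^ e) (Fx p j e) := by
  have hp0 : (0 : ℚ) ≤ p := p_pos'.le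
  have hinv : (0 : ℚ) ≤ (p : ℚ)⁻¹ := inv_nonneg.2 hp0
  have hcard : ((Finset.Icc 3 14).erase j).card = 11 := by
    rw [Finset.card_erase_of_mem (by rw [Finset.mem_Icc]; omega)]; rfl
  have e1 : PB p (p : ℚ) (p : ℚ)⁻¹ (PowerSeries.X + PowerSeries.C (-(j : ℚ) * p)) :=
    PB_linp (-(j : ℤ)) (by push_cast; ring)
  have e2 : PB p (p : ℚ) (p : ℚ)⁻¹ (PowerSeries.X + PowerSeries.C ((1 - (j : ℚ)) * p)) :=
    PB_linp (1 - (j : ℤ)) (by push_cast; ring)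
  have e3 : PB p (p : ℚ) (p : ℚ)⁻¹ (PowerSeries.X + PowerSeries.C ((16 - (j : ℚ)) * p)) :=
    PB_linp (16 - (j : ℤ)) (by push_cast; ring)
  have e4 : PB p (p : ℚ) (p : ℚ)⁻¹ (PowerSeries.X + PowerSeries.C ((17 - (j : ℚ)) * p)) :=
    PB_linp (17 - (j : ℤ)) (by push_cast; ring)
  have f1 := PB.pow hp0 (by positivity) (PB.mul hp0 (by positivity) hinv
    (PB.mul hp0 (by positivity) hinv (PB.mul hp0 hinv hinv e1 e2) e3) e4) 5
  have f2 : PB p (p : ℚ) (∏ b ∈ (Finset.Icc 3 14).erase j, (p : ℚ) ^ 10)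
      (∏ b ∈ (Finset.Icc 3 14).erase j, iv (((b : ℚ) - j) * p) ^ 10) := by
    apply PB.prod _ _ _ hp0
    · intro b _; positivity
    · intro b hb
      rw [Finset.mem_erase, Finset.mem_Icc] at hb
      apply PB.pow hp0 hp0
      apply PB_ivp (a := (b : ℤ) - j) (by push_cast; ring)
      intro hdvd
      have h1 : ((b : ℤ) - j) ≠ 0 := by omega
      have h2 := Int.le_of_dvd (a := p) (b := |(b : ℤ) - j|) (abs_pos.2 h1) ((dvd_abs _ _).2 hdvd)
      have h3 : |(b : ℤ) - j| ≤ 14 := by rw [abs_le]; constructor <;> omega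
      omega
  have f3 := PB.pow hp0 hinv e1 e
  rw [Finset.prod_const, hcard, ← pow_mul] at f2
  have f4 := PB.mul hp0 (by positivity) (by positivity) (PB.mul hp0 (by positivity) (by positivity) f1 f2) f3
  have h5 : ((p : ℚ)⁻¹ * (p : ℚ)⁻¹ * (p : ℚ)⁻¹ * (p : ℚ)⁻¹) ^ 5 * (p : ℚ) ^ (10 * 11) * ((p : ℚ)⁻¹) ^ e =
      ((p : ℚ)⁻¹) ^ 20 * (p : ℚ) ^ 110 * ((p : ℚ)⁻¹) ^ e := by ring
  rw [h5] at f4
  exact f4


/-! ### the unit part -/

def S1 (p r : ℕ) : Finset ℕ := ((Finset.Icc 1 (2 * p)).erase r).erase (r + p)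

def S2 (p r : ℕ) : Finset ℕ := ((Finset.Icc 1 (2 * p)).erase (p - r)).erase (2 * p - r)

def PT (p r : ℕ) : Finset ℕ := (Finset.Icc 3 14).image (fun b => r + b * p)

def S3 (p r : ℕ) : Finset ℕ := Finset.Icc (3 * p) (15 * p) \ PT p r

/-- the constant -/
def w0 (p r : ℕ) : ℚ :=
  (-2 * (r : ℚ)) * (∏ m ∈ S1 p r, ((m : ℚ) - r) ^ 5) *
  (∏ m ∈ S2 p r, (18 * (p : ℚ) - m - r) ^ 5) *
  ((-(r : ℚ)) * (18 * p - r)) ^ 55 *
  (∏ r' ∈ (Finset.Icc 1 ((p - 1) / 2)).erase r, (((r' : ℚ) - r) * (18 * p - r' - r)) ^ 100) *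
  ∏ m ∈ S3 p r, (((m : ℚ) - r)⁻¹) ^ 10

/-- the unit part -/
def Gx (p r k e : ℕ) : PowerSeries ℚ :=
  (PowerSeries.C 2 * PowerSeries.X + PowerSeries.C (2 * -(k : ℚ) + 18 * p)) *
  (∏ m ∈ S1 p r, (PowerSeries.X + PowerSeries.C (-(k : ℚ) + m)) ^ 5) *
  (∏ m ∈ S2 p r, (PowerSeries.X + PowerSeries.C (-(k : ℚ) + (18 * p - m))) ^ 5) *
  ((PowerSeries.X + PowerSeries.C (-(k : ℚ))) *
    (PowerSeries.X + PowerSeries.C (-(k : ℚ) + 18 * p))) ^ 55 *
  (∏ r' ∈ (Finset.Icc 1 ((p - 1) / 2)).erase r,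
    ((PowerSeries.X + PowerSeries.C (-(k : ℚ) + r')) *
      (PowerSeries.X + PowerSeries.C (-(k : ℚ) + (18 * p - r')))) ^ 100) *
  (∏ m ∈ S3 p r, iv (-(k : ℚ) + m) ^ 10) *
  (PowerSeries.X + PowerSeries.C (-(k : ℚ) + (18 * p - r))) ^ e

lemma UC.lin2 {a a0 : ℤ} {q q0 : ℚ} (hq : q = a) (hq0 : q0 = a0) (h0 : ¬ (p : ℤ) ∣ a0)
    (h : (p : ℤ) ∣ a - a0) :
    UC p (PowerSeries.C 2 * PowerSeries.X + PowerSeries.C q) q0 := by
  subst hq hq0
  have hp0 : (0 : ℚ) ≤ p := p_pos'.le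
  have hp1 : (1 : ℚ) ≤ p := p_one'
  have hinv : (0 : ℚ) ≤ (p : ℚ)⁻¹ := inv_nonneg.2 hp0
  have h2 : padicNorm p (2 : ℚ) ≤ 1 := by
    have := padicNorm.of_int (p := p) 2
    push_cast at this
    exact this
  refine ⟨norm_int_one h0, ?_, ?_⟩
  · exact PB.lin hp0 zero_le_one (padicNorm.of_int a) (by rw [one_mul]; exact h2.trans hp1)
  · have h1 : (PowerSeries.C 2 * PowerSeries.X + PowerSeries.C (a : ℚ) - PowerSeries.C (a0 : ℚ) :
        PowerSeries ℚ) =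
        PowerSeries.C 2 * PowerSeries.X + PowerSeries.C ((a - a0 : ℤ) : ℚ) := by
      push_cast
      rw [map_sub]; ring
    rw [h1]
    exact PB.lin hp0 hinv (norm_int_dvd h) (by rw [inv_mul_cancel₀ p_pos'.ne']; exact h2)

lemma not_dvd_of_lt {a : ℤ} (h0 : a ≠ 0) (h1 : -(p : ℤ) < a) (h2 : a < p) : ¬ (p : ℤ) ∣ a := by
  intro hdvd
  have h3 := Int.le_of_dvd (a := p) (b := |a|) (abs_pos.2 h0) ((dvd_abs _ _).2 hdvd)
  have h4 : |a| < p := abs_lt.2 ⟨h1, h2⟩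
  omega

/-- if `p ∣ a` with `a` in a bounded range, find the quotient -/
lemma S1_not_dvd {r m : ℕ} (hr1 : 1 ≤ r) (hr2 : 2 * r < p) (hm : m ∈ S1 p r) :
    ¬ (p : ℤ) ∣ (m : ℤ) - r := by
  unfold S1 at hm
  rw [Finset.mem_erase, Finset.mem_erase, Finset.mem_Icc] at hm
  obtain ⟨h1, h2, h3, h4⟩ := hm
  rintro ⟨c, hc⟩
  have hpp : (0 : ℤ) < p := by exact_mod_cast hp.out.pos
  have hc1 : c < 2 := by
    by_contra h
    have h5 : (p : ℤ) * 2 ≤ p * c := mul_le_mul_of_nonneg_left (by omega) hpp.le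
    omega
  have hc2 : -1 < c := by
    by_contra h
    have h5 : (p : ℤ) * c ≤ p * (-1) := mul_le_mul_of_nonneg_left (by omega) hpp.le
    omega
  have hc3 : c = 0 ∨ c = 1 := by omega
  rcases hc3 with rfl | rfl
  · apply h2; omega
  · apply h1; omega

lemma S2_not_dvd {r m : ℕ} (hr1 : 1 ≤ r) (hr2 : 2 * r < p) (hm : m ∈ S2 p r) :
    ¬ (p : ℤ) ∣ 18 * (p : ℤ) - m - r := by
  unfold S2 at hm
  rw [Finset.mem_erase, Finset.mem_erase, Finset.mem_Icc] at hm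
  obtain ⟨h1, h2, h3, h4⟩ := hm
  rintro ⟨c, hc⟩
  have hpp : (0 : ℤ) < p := by exact_mod_cast hp.out.pos
  have hc1 : c < 18 := by
    by_contra h
    have h5 : (p : ℤ) * 18 ≤ p * c := mul_le_mul_of_nonneg_left (by omega) hpp.le
    omega
  have hc2 : 15 < c := by
    by_contra h
    have h5 : (p : ℤ) * c ≤ p * 15 := mul_le_mul_of_nonneg_left (by omega) hpp.le
    omega
  have hc3 : c = 16 ∨ c = 17 := by omega
  rcases hc3 with rfl | rfl
  · apply h1; omega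
  · apply h2; omega

lemma S3_not_dvd {r m : ℕ} (hr1 : 1 ≤ r) (hr2 : 2 * r < p) (hm : m ∈ S3 p r) :
    ¬ (p : ℤ) ∣ (m : ℤ) - r := by
  unfold S3 PT at hm
  rw [Finset.mem_sdiff, Finset.mem_Icc, Finset.mem_image] at hm
  obtain ⟨⟨h1, h2⟩, h3⟩ := hm
  rintro ⟨c, hc⟩
  have hpp : (0 : ℤ) < p := by exact_mod_cast hp.out.pos
  have hc1 : c < 15 := by
    by_contra h
    have h5 : (p : ℤ) * 15 ≤ p * c := mul_le_mul_of_nonneg_left (by omega) hpp.le
    omega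
  have hc2 : 2 < c := by
    by_contra h
    have h5 : (p : ℤ) * c ≤ p * 2 := mul_le_mul_of_nonneg_left (by omega) hpp.le
    omega
  apply h3
  refine ⟨c.toNat, by rw [Finset.mem_Icc]; omega, ?_⟩
  have h6 : ((c.toNat : ℕ) : ℤ) = c := Int.toNat_of_nonneg (by omega)
  have h7 : ((r + c.toNat * p : ℕ) : ℤ) = m := by
    push_cast
    rw [h6]
    linarith
  exact_mod_cast h7

lemma Gx_UC (hp30 : 110 ≤ p) {r : ℕ} (hr1 : 1 ≤ r) (hr2 : 2 * r < p) (j e : ℕ) :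
    UC p (Gx p r (r + j * p) e) (w0 p r * (-2 * (r : ℚ)) ^ e) := by
  have n2r : ¬ (p : ℤ) ∣ -2 * (r : ℤ) := not_dvd_of_lt (by omega) (by omega) (by omega)
  unfold Gx w0
  refine UC.mul (UC.mul (UC.mul (UC.mul (UC.mul (UC.mul ?_ ?_) ?_) ?_) ?_) ?_) ?_
  · apply UC.lin2 (a := 2 * -((r + j * p : ℕ) : ℤ) + 18 * p) (a0 := -2 * (r : ℤ))
    · push_cast; ring
    · push_cast; ring
    · exact n2r
    · refine ⟨18 - 2 * j, ?_⟩
      push_cast; ring
  · apply UC.prod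
    intro m hm
    apply UC.pow
    apply UC.lin (a := -((r + j * p : ℕ) : ℤ) + m) (a0 := (m : ℤ) - r)
    · push_cast; ring
    · push_cast; ring
    · exact S1_not_dvd hr1 hr2 hm
    · refine ⟨-j, ?_⟩
      push_cast; ring
  · apply UC.prod
    intro m hm
    apply UC.pow
    apply UC.lin (a := -((r + j * p : ℕ) : ℤ) + (18 * p - m)) (a0 := 18 * (p : ℤ) - m - r)
    · push_cast; ring
    · push_cast; ring
    · exact S2_not_dvd hr1 hr2 hm
    · refine ⟨-j, ?_⟩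
      push_cast; ring
  · apply UC.pow
    apply UC.mul
    · apply UC.lin (a := -((r + j * p : ℕ) : ℤ)) (a0 := -(r : ℤ))
      · push_cast; ring
      · push_cast; ring
      · exact not_dvd_of_lt (by omega) (by omega) (by omega)
      · refine ⟨-j, ?_⟩
        push_cast; ring
    · apply UC.lin (a := -((r + j * p : ℕ) : ℤ) + 18 * p) (a0 := 18 * (p : ℤ) - r)
      · push_cast; ring
      · push_cast; ring
      · intro h
        have h1 : (p : ℤ) ∣ 18 * (p : ℤ) := Dvd.intro_left _ rfl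
        have h2 := dvd_sub h1 h
        rw [sub_sub_cancel] at h2
        exact not_dvd_of_lt (by omega) (by omega) (by omega) h2
      · refine ⟨-j, ?_⟩
        push_cast; ring
  · apply UC.prod
    intro r' hr'
    rw [Finset.mem_erase, Finset.mem_Icc] at hr'
    apply UC.pow
    apply UC.mul
    · apply UC.lin (a := -((r + j * p : ℕ) : ℤ) + r') (a0 := (r' : ℤ) - r)
      · push_cast; ring
      · push_cast; ring
      · exact not_dvd_of_lt (by omega) (by omega) (by omega)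
      · refine ⟨-j, ?_⟩
        push_cast; ring
    · apply UC.lin (a := -((r + j * p : ℕ) : ℤ) + (18 * p - r')) (a0 := 18 * (p : ℤ) - r' - r)
      · push_cast; ring
      · push_cast; ring
      · intro h
        have h1 : (p : ℤ) ∣ 18 * (p : ℤ) := Dvd.intro_left _ rfl
        have h2 := dvd_sub h1 h
        have h3 : 18 * (p : ℤ) - (18 * (p : ℤ) - r' - r) = r' + r := by ring
        rw [h3] at h2
        exact not_dvd_of_lt (by omega) (by omega) (by omega) h2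
      · refine ⟨-j, ?_⟩
        push_cast; ring
  · apply UC.prod
    intro m hm
    apply UC.pow
    apply UC.iv (a := -((r + j * p : ℕ) : ℤ) + m) (a0 := (m : ℤ) - r)
    · push_cast; ring
    · push_cast; ring
    · exact S3_not_dvd hr1 hr2 hm
    · refine ⟨-j, ?_⟩
      push_cast; ring
  · apply UC.pow
    apply UC.lin (a := -((r + j * p : ℕ) : ℤ) + (18 * p - r)) (a0 := -2 * (r : ℤ))
    · push_cast; ring
    · push_cast; ring
    · exact n2r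
    · refine ⟨18 - j, ?_⟩
      push_cast; ring

/-! ### the numerator -/

lemma XN_comp (n r : ℕ) : (XN n r).comp (xp n) = (X + C (r : ℚ)) * (X + C (18 * (n : ℚ) - r)) := by
  unfold XN xp
  rw [Polynomial.add_comp, Polynomial.X_comp, Polynomial.C_comp]
  push_cast
  simp only [map_mul, map_sub]
  ring

lemma TS_num (p r e k : ℕ) : TS (-(k : ℚ)) (PPn p * EE p (XN p r ^ e *
      ∏ r' ∈ (Finset.Icc 1 ((p - 1) / 2)).erase r, XN p r' ^ 100)) =
    PowerSeries.C (cstN p) *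
    (PowerSeries.C 2 * PowerSeries.X + PowerSeries.C (2 * -(k : ℚ) + 18 * p)) *
    ((∏ m ∈ Finset.Icc 1 (2 * p), (PowerSeries.X + PowerSeries.C (-(k : ℚ) + m)) ^ 5) *
    (∏ m ∈ Finset.Icc 1 (2 * p), (PowerSeries.X + PowerSeries.C (-(k : ℚ) + (18 * p - m))) ^ 5)) *
    (((PowerSeries.X + PowerSeries.C (-(k : ℚ))) *
      (PowerSeries.X + PowerSeries.C (-(k : ℚ) + 18 * p))) ^ 55 *
    (((PowerSeries.X + PowerSeries.C (-(k : ℚ) + r)) *
      (PowerSeries.X + PowerSeries.C (-(k : ℚ) + (18 * p - r)))) ^ e *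
    ∏ r' ∈ (Finset.Icc 1 ((p - 1) / 2)).erase r,
      ((PowerSeries.X + PowerSeries.C (-(k : ℚ) + r')) *
        (PowerSeries.X + PowerSeries.C (-(k : ℚ) + (18 * p - r')))) ^ 100)) := by
  unfold EE
  simp only [Polynomial.mul_comp, Polynomial.pow_comp, Polynomial.prod_comp, XN_comp,
    Polynomial.X_comp]
  have hxp : xp p = X * (X + C (18 * (p : ℚ))) := by
    unfold xp
    push_cast
    rfl
  rw [hxp]
  unfold PPn PP NN cstN
  rw [Finset.prod_mul_distrib]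
  simp only [Nat.cast_ofNat]
  generalize (18 : ℚ) * (p : ℚ) = d
  simp only [map_mul, map_pow, map_prod, TS_C, TS_lin, TS_X, TS_lin2]

lemma mu_one {p m : ℕ} (h1 : 3 * p ≤ m) (h2 : m ≤ 15 * p) : muN p m = 10 := by
  unfold muN mu ds10
  have h3 : (3 * p ≤ m ∧ m + 3 * p ≤ 18 * p) := by omega
  simp [h3]

lemma mu_two {p m : ℕ} (h : ¬ (3 * p ≤ m ∧ m ≤ 15 * p)) : muN p m = 0 := by
  unfold muN mu ds10
  have h3 : ¬ (3 * p ≤ m ∧ m + 3 * p ≤ 18 * p) := by omega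
  simp only [List.countP_cons, List.countP_nil, h3, decide_false, Bool.false_eq_true, if_false]

lemma VV_den (hp30 : 110 ≤ p) {r : ℕ} (hr1 : 1 ≤ r) (hr2 : 2 * r < p) {j : ℕ} (hj3 : 3 ≤ j)
    (hj8 : j ≤ 14) :
    VV ((sN p).erase (r + j * p)) (muN p) (-((r + j * p : ℕ) : ℚ)) =
      (∏ m ∈ S3 p r, iv (-((r + j * p : ℕ) : ℚ) + m) ^ 10) *
      ∏ b ∈ (Finset.Icc 3 14).erase j, iv (((b : ℚ) - j) * p) ^ 10 := by
  have hjp1 : 3 * p ≤ j * p := Nat.mul_le_mul_right p hj3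
  have hjp2 : j * p ≤ 14 * p := Nat.mul_le_mul_right p hj8
  unfold VV
  have h1 : ∏ m ∈ (sN p).erase (r + j * p), iv (-((r + j * p : ℕ) : ℚ) + m) ^ muN p m =
      ∏ m ∈ (Finset.Icc (3 * p) (15 * p)).erase (r + j * p), iv (-((r + j * p : ℕ) : ℚ) + m) ^ 10 := by
    symm
    have h2 : ∏ m ∈ (Finset.Icc (3 * p) (15 * p)).erase (r + j * p),
        iv (-((r + j * p : ℕ) : ℚ) + m) ^ 10 =
        ∏ m ∈ (Finset.Icc (3 * p) (15 * p)).erase (r + j * p),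
          iv (-((r + j * p : ℕ) : ℚ) + m) ^ muN p m := by
      apply Finset.prod_congr rfl
      intro m hm
      rw [Finset.mem_erase, Finset.mem_Icc] at hm
      rw [mu_one hm.2.1 hm.2.2]
    rw [h2]
    apply Finset.prod_subset
    · intro m hm
      rw [Finset.mem_erase, Finset.mem_Icc] at hm
      rw [Finset.mem_erase]
      refine ⟨hm.1, ?_⟩
      unfold sN ss
      rw [Finset.mem_Icc]
      omega
    · intro m hm hm2
      rw [Finset.mem_erase] at hm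
      rw [Finset.mem_erase, Finset.mem_Icc] at hm2
      rw [mu_two (fun h => hm2 ⟨hm.1, h⟩), pow_zero]
  rw [h1]
  have h3 : (Finset.Icc (3 * p) (15 * p)).erase (r + j * p) =
      S3 p r ∪ ((Finset.Icc 3 14).erase j).image (fun b => r + b * p) := by
    ext m
    unfold S3 PT
    rw [Finset.mem_union, Finset.mem_erase, Finset.mem_sdiff, Finset.mem_image, Finset.mem_image,
      Finset.mem_Icc]
    constructor
    · rintro ⟨h4, h5⟩
      by_cases h6 : ∃ a ∈ Finset.Icc 3 14, r + a * p = m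
      · right
        obtain ⟨a, ha, hm⟩ := h6
        refine ⟨a, ?_, hm⟩
        rw [Finset.mem_erase]
        refine ⟨?_, ha⟩
        rintro rfl
        exact h4 hm.symm
      · left
        exact ⟨h5, h6⟩
    · rintro (⟨h4, h5⟩ | ⟨a, ha, hm⟩)
      · refine ⟨?_, h4⟩
        rintro rfl
        exact h5 ⟨j, by rw [Finset.mem_Icc]; exact ⟨hj3, hj8⟩, rfl⟩
      · rw [Finset.mem_erase, Finset.mem_Icc] at ha
        have ha1 : 3 * p ≤ a * p := Nat.mul_le_mul_right p ha.2.1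
        have ha2 : a * p ≤ 14 * p := Nat.mul_le_mul_right p ha.2.2
        refine ⟨?_, by omega⟩
        intro h6
        apply ha.1
        have h7 : a * p = j * p := by omega
        exact Nat.eq_of_mul_eq_mul_right (by omega) h7
  have h4 : Disjoint (S3 p r) (((Finset.Icc 3 14).erase j).image (fun b => r + b * p)) := by
    rw [Finset.disjoint_left]
    intro m hm hm2
    unfold S3 PT at hm
    rw [Finset.mem_sdiff] at hm
    apply hm.2
    rw [Finset.mem_image] at hm2 ⊢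
    obtain ⟨a, ha, hm3⟩ := hm2
    exact ⟨a, Finset.mem_of_mem_erase ha, hm3⟩
  have h5 : ∏ m ∈ ((Finset.Icc 3 14).erase j).image (fun b => r + b * p),
      iv (-((r + j * p : ℕ) : ℚ) + m) ^ 10 =
      ∏ b ∈ (Finset.Icc 3 14).erase j, iv (-((r + j * p : ℕ) : ℚ) + ((r + b * p : ℕ) : ℚ)) ^ 10 := by
    apply Finset.prod_image
    intro a _ b _ hab
    have h5 : r + a * p = r + b * p := hab
    have h7 : a * p = b * p := by omega
    exact Nat.eq_of_mul_eq_mul_right (by omega) h7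
  have h6 : ∀ b : ℕ, -((r + j * p : ℕ) : ℚ) + ((r + b * p : ℕ) : ℚ) = ((b : ℚ) - j) * p := by
    intro b
    push_cast
    ring
  rw [h3, Finset.prod_union h4, h5]
  refine congrArg₂ _ rfl (Finset.prod_congr rfl fun b _ => ?_)
  rw [h6]

/-- the factorisation -/
lemma factor (hp30 : 110 ≤ p) {r : ℕ} (hr1 : 1 ≤ r) (hr2 : 2 * r < p) {j : ℕ} (hj3 : 3 ≤ j)
    (hj8 : j ≤ 14) (e : ℕ) :
    TS (-((r + j * p : ℕ) : ℚ)) (PPn p * EE p (XN p r ^ e *
      ∏ r' ∈ (Finset.Icc 1 ((p - 1) / 2)).erase r, XN p r' ^ 100)) *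
      VV ((sN p).erase (r + j * p)) (muN p) (-((r + j * p : ℕ) : ℚ)) =
    PowerSeries.C (cstN p) * (Fx p j e * Gx p r (r + j * p) e) := by
  rw [TS_num, VV_den hp30 hr1 hr2 hj3 hj8]
  have v1 : -((r + j * p : ℕ) : ℚ) + (r : ℚ) = -(j : ℚ) * p := by push_cast; ring
  have v2 : -((r + j * p : ℕ) : ℚ) + ((r + p : ℕ) : ℚ) = (1 - (j : ℚ)) * p := by push_cast; ring
  have v3 : -((r + j * p : ℕ) : ℚ) + (18 * (p : ℚ) - ((p - r : ℕ) : ℚ)) = (17 - (j : ℚ)) * p := by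
    rw [Nat.cast_sub (by omega)]
    push_cast; ring
  have v4 : -((r + j * p : ℕ) : ℚ) + (18 * (p : ℚ) - ((2 * p - r : ℕ) : ℚ)) = (16 - (j : ℚ)) * p := by
    rw [Nat.cast_sub (by omega)]
    push_cast; ring
  have hA : ∏ m ∈ Finset.Icc 1 (2 * p), (PowerSeries.X + PowerSeries.C (-((r + j * p : ℕ) : ℚ) + m)) ^ 5 =
      (PowerSeries.X + PowerSeries.C (-(j : ℚ) * p)) ^ 5 *
      ((PowerSeries.X + PowerSeries.C ((1 - (j : ℚ)) * p)) ^ 5 *
      ∏ m ∈ S1 p r, (PowerSeries.X + PowerSeries.C (-((r + j * p : ℕ) : ℚ) + m)) ^ 5) := by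
    unfold S1
    rw [← Finset.mul_prod_erase _ _ (show r ∈ Finset.Icc 1 (2 * p) by rw [Finset.mem_Icc]; omega),
      ← Finset.mul_prod_erase _ _ (show r + p ∈ (Finset.Icc 1 (2 * p)).erase r by
        rw [Finset.mem_erase, Finset.mem_Icc]; omega), v1, v2]
  have hB : ∏ m ∈ Finset.Icc 1 (2 * p),
      (PowerSeries.X + PowerSeries.C (-((r + j * p : ℕ) : ℚ) + (18 * (p : ℚ) - m))) ^ 5 =
      (PowerSeries.X + PowerSeries.C ((17 - (j : ℚ)) * p)) ^ 5 *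
      ((PowerSeries.X + PowerSeries.C ((16 - (j : ℚ)) * p)) ^ 5 *
      ∏ m ∈ S2 p r, (PowerSeries.X + PowerSeries.C (-((r + j * p : ℕ) : ℚ) + (18 * (p : ℚ) - m))) ^ 5) := by
    unfold S2
    rw [← Finset.mul_prod_erase _ _ (show p - r ∈ Finset.Icc 1 (2 * p) by rw [Finset.mem_Icc]; omega),
      ← Finset.mul_prod_erase _ _ (show 2 * p - r ∈ (Finset.Icc 1 (2 * p)).erase (p - r) by
        rw [Finset.mem_erase, Finset.mem_Icc]; omega), v3, v4]
  rw [hA, hB, v1]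
  unfold Fx Gx
  generalize ∏ m ∈ S1 p r, (PowerSeries.X + PowerSeries.C (-((r + j * p : ℕ) : ℚ) + m)) ^ 5 = a1
  generalize ∏ m ∈ S2 p r, (PowerSeries.X + PowerSeries.C (-((r + j * p : ℕ) : ℚ) + (18 * (p : ℚ) - m))) ^ 5 = a2
  generalize ∏ m ∈ S3 p r, iv (-((r + j * p : ℕ) : ℚ) + m) ^ 10 = a3
  generalize ∏ b ∈ (Finset.Icc 3 14).erase j, iv (((b : ℚ) - j) * p) ^ 10 = a4
  generalize ∏ r' ∈ (Finset.Icc 1 ((p - 1) / 2)).erase r,
    ((PowerSeries.X + PowerSeries.C (-((r + j * p : ℕ) : ℚ) + r')) *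
        (PowerSeries.X + PowerSeries.C (-((r + j * p : ℕ) : ℚ) + (18 * p - r')))) ^ 100 = a5
  rw [mul_pow (PowerSeries.X + PowerSeries.C (-(j : ℚ) * p)) _ e]
  generalize (PowerSeries.X + PowerSeries.C (-(j : ℚ) * p)) ^ e = a6
  generalize (PowerSeries.X + PowerSeries.C (-((r + j * p : ℕ) : ℚ) + (18 * (p : ℚ) - r))) ^ e = a7
  generalize (PowerSeries.X + PowerSeries.C (-(j : ℚ) * p)) = a8
  generalize (PowerSeries.X + PowerSeries.C ((1 - (j : ℚ)) * p)) = a9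
  generalize (PowerSeries.X + PowerSeries.C ((16 - (j : ℚ)) * p)) = a10
  generalize (PowerSeries.X + PowerSeries.C ((17 - (j : ℚ)) * p)) = a11
  generalize ((PowerSeries.X + PowerSeries.C (-((r + j * p : ℕ) : ℚ))) *
    (PowerSeries.X + PowerSeries.C (-((r + j * p : ℕ) : ℚ) + 18 * p))) ^ 55 = a12
  generalize (PowerSeries.C 2 * PowerSeries.X + PowerSeries.C (2 * -((r + j * p : ℕ) : ℚ) + 18 * p)) = a13
  ring

end H2aux

open H2aux

theorem H2_pa {p : ℕ} [Fact p.Prime] (hp : 110 ≤ p) (r : ℕ) (hr1 : 1 ≤ r) (hr2 : 2 * r < p) :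
    ∃ w : ℚ, padicNorm p w = 1 ∧ ∀ e j i : ℕ, e ≤ 98 → 3 ≤ j → j ≤ 14 → 1 ≤ i → i ≤ 10 →
      padicNorm p (pa (sN p) (muN p) (PPn p * EE p (XN p r ^ e *
        ∏ r' ∈ (Finset.Icc 1 ((p - 1) / 2)).erase r, XN p r' ^ 100)) (r + j * p) i / (p : ℚ) ^ (i + e) -
        w * (-2 * r) ^ e * PowerSeries.coeff (10 - i) (ser j e)) ≤ (p : ℚ)⁻¹ := by
  have hp0 : (p : ℚ) ≠ 0 := p_pos'.ne'
  have hpp : (0 : ℚ) < p := p_pos'
  have hcst : padicNorm p (cstN p) = ((p : ℚ)⁻¹) ^ 100 := by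
    have hd1 : 2 * p / p = 2 := by rw [mul_comm]; exact Nat.mul_div_cancel_left 2 (by omega)
    have hd2 : 12 * p / p = 12 := by rw [mul_comm]; exact Nat.mul_div_cancel_left 12 (by omega)
    have h1 := norm_cst (p := p) 5 18 2 p ds10 (by nlinarith) (by
      intro d hd
      have : d = 3 := by simpa [ds10] using hd
      omega) (by norm_num)
    unfold cstN
    rw [h1, hd1]
    have h2 : ((List.map (fun d => (18 - 2 * d) * p / p) ds10).sum : ℕ) = 120 := by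
      simp [ds10, hd2]
    rw [h2, inv_pow, ← zpow_natCast, ← zpow_neg]
    norm_num
  refine ⟨cstN p / (p : ℚ) ^ 100 * w0 p r, ?_, ?_⟩
  · have h0 := (Gx_UC hp hr1 hr2 0 0).1
    rw [pow_zero, mul_one] at h0
    rw [padicNorm.mul, padicNorm.div, hcst, h0, padicNorm_pow', padicNorm.padicNorm_p_of_prime, mul_one]
    exact div_self (by positivity)
  · intro e j i he hj3 hj8 hi1 hi6
    have hjp1 : 3 * p ≤ j * p := Nat.mul_le_mul_right p hj3
    have hjp2 : j * p ≤ 14 * p := Nat.mul_le_mul_right p hj8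
    have hmu : muN p (r + j * p) = 10 := mu_one (by omega) (by omega)
    unfold pa
    rw [hmu, if_pos hi6]
    unfold pfc
    rw [factor hp hr1 hr2 hj3 hj8 e, PowerSeries.coeff_C_mul]
    have h1 := coeff_mul_UC (p := p) (by positivity) (Fx_PB hp hj3 hj8 e) (Gx_UC hp hr1 hr2 j e) (10 - i)
    have h2 := Fx_coeff hp0 hj3 hj8 e (10 - i)
    set X1 := PowerSeries.coeff (10 - i) (Fx p j e * Gx p r (r + j * p) e) with hX1
    set X2 := PowerSeries.coeff (10 - i) (Fx p j e) with hX2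
    have hpow : (p : ℚ) ^ 20 * ((p : ℚ)⁻¹) ^ 110 * (p : ℚ) ^ e * ((p : ℚ)⁻¹) ^ (10 - i) * (p : ℚ) ^ 100 =
        (p : ℚ) ^ (i + e) := by
      have h3 : ((p : ℚ)⁻¹) ^ (10 - i) * (p : ℚ) ^ 10 = (p : ℚ) ^ i := by
        have h4 : (p : ℚ) ^ 10 = (p : ℚ) ^ (10 - i) * (p : ℚ) ^ i := by
          rw [← pow_add, Nat.sub_add_cancel hi6]
        rw [h4, ← mul_assoc, ← mul_pow, inv_mul_cancel₀ hp0, one_pow, one_mul]
      have h5 : ((p : ℚ)⁻¹) ^ 110 * (p : ℚ) ^ 110 = 1 := by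
        rw [← mul_pow, inv_mul_cancel₀ hp0, one_pow]
      calc (p : ℚ) ^ 20 * ((p : ℚ)⁻¹) ^ 110 * (p : ℚ) ^ e * ((p : ℚ)⁻¹) ^ (10 - i) * (p : ℚ) ^ 100
          = (((p : ℚ)⁻¹) ^ 110 * (p : ℚ) ^ 110) * (p : ℚ) ^ e * (((p : ℚ)⁻¹) ^ (10 - i) * (p : ℚ) ^ 10) := by
            ring
        _ = (p : ℚ) ^ (i + e) := by rw [h3, h5, pow_add]; ring
    have h6 : cstN p * X1 / (p : ℚ) ^ (i + e) -
        cstN p / (p : ℚ) ^ 100 * w0 p r * (-2 * (r : ℚ)) ^ e * PowerSeries.coeff (10 - i) (ser j e) =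
        cstN p / (p : ℚ) ^ (i + e) * (X1 - X2 * (w0 p r * (-2 * (r : ℚ)) ^ e)) := by
      rw [h2, mul_sub]
      congr 1
      · ring
      · rw [← hpow]
        have h7 : ((p : ℚ)⁻¹) ^ 110 ≠ 0 := by positivity
        have h8 : ((p : ℚ)⁻¹) ^ (10 - i) ≠ 0 := by positivity
        generalize ((p : ℚ)⁻¹) ^ 110 = c1 at *
        generalize ((p : ℚ)⁻¹) ^ (10 - i) = c2 at *
        field_simp
    rw [h6, padicNorm.mul, padicNorm.div, hcst, padicNorm_pow', padicNorm.padicNorm_p_of_prime]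
    calc ((p : ℚ)⁻¹) ^ 100 / ((p : ℚ)⁻¹) ^ (i + e) *
          padicNorm p (X1 - X2 * (w0 p r * (-2 * (r : ℚ)) ^ e))
        ≤ ((p : ℚ)⁻¹) ^ 100 / ((p : ℚ)⁻¹) ^ (i + e) *
          (((p : ℚ)⁻¹) ^ 20 * (p : ℚ) ^ 110 * ((p : ℚ)⁻¹) ^ e * (p : ℚ)⁻¹ * (p : ℚ) ^ (10 - i)) :=
          mul_le_mul_of_nonneg_left h1 (by positivity)
      _ = (p : ℚ)⁻¹ := by
        have h9 : (p : ℚ) ^ (10 - i) * ((p : ℚ)⁻¹) ^ 10 = ((p : ℚ)⁻¹) ^ i := by
          have h4 : ((p : ℚ)⁻¹) ^ 10 = ((p : ℚ)⁻¹) ^ (10 - i) * ((p : ℚ)⁻¹) ^ i := by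
            rw [← pow_add, Nat.sub_add_cancel hi6]
          rw [h4, ← mul_assoc, ← mul_pow, mul_inv_cancel₀ hp0, one_pow, one_mul]
        have h5 : ((p : ℚ)⁻¹) ^ 110 * (p : ℚ) ^ 110 = 1 := by
          rw [← mul_pow, inv_mul_cancel₀ hp0, one_pow]
        have h10 : ((p : ℚ)⁻¹) ^ (i + e) ≠ 0 := by positivity
        rw [div_mul_eq_mul_div, div_eq_iff h10]
        calc ((p : ℚ)⁻¹) ^ 100 *
            (((p : ℚ)⁻¹) ^ 20 * (p : ℚ) ^ 110 * ((p : ℚ)⁻¹) ^ e * (p : ℚ)⁻¹ * (p : ℚ) ^ (10 - i))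
            = (((p : ℚ)⁻¹) ^ 110 * (p : ℚ) ^ 110) * ((p : ℚ) ^ (10 - i) * ((p : ℚ)⁻¹) ^ 10) *
              (((p : ℚ)⁻¹) ^ e * (p : ℚ)⁻¹) := by ring
          _ = (p : ℚ)⁻¹ * ((p : ℚ)⁻¹) ^ (i + e) := by
            rw [h5, h9, pow_add]; ring

end

end Pool.Agent.U795.Z7
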