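import Pool.Agent.H336R2.HD.A5
import Pool.Agent.U795.Z7.D4
import Pool.Agent.U795.Z7.E4
import Pool.Agent.U795.Z7.F2
import Pool.Agent.U795.Z7.F3
import Pool.Agent.U795.Z7.F4
import Pool.Agent.U795.Z7.F5
import Pool.Agent.U795.Z7.F6
import Pool.Agent.U795.Z7.G4
import Pool.Agent.U795.Z7.G5
import Pool.Agent.U795.Z7.H6

/-! # One of `ζ(7), ζ(9), ζ(11), ζ(13)` is irrational -/

open Polynomial Pool.Agent.H337R2 Filter Topology

namespace Pool.Agent.U795.Z7

noncomputable section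

/-- the final numerical inequality -/
lemma Z_num (hR : ((LA + LB + LC + LU : ℚ) : ℝ) ≤ 228864 / 100) :
    JJ - (1250 * Real.log 50 - 1875) + 35 / 2 +
      ((LA + LB + LC + LU : ℚ) : ℝ) < -1 := by
  have h2 := Real.log_two_gt_d9
  have hJ := G5_JJ
  have h102 : 79 * Real.log 2 ≤ 14 * Real.log 50 := by
    have h1 : Real.log ((2 : ℝ) ^ 79) ≤ Real.log ((50 : ℝ) ^ 14) := by
      apply Real.log_le_log (by norm_num)
      norm_num
    rw [Real.log_pow, Real.log_pow] at h1
    push_cast at h1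
    exact h1
  linarith

/-- bound of the local factor -/
def Bf (n p : ℕ) (K0 : ℝ) : ℝ :=
  if 20 * p ≤ n then
    (if p ^ 2 ≤ 50 * n then ((((50 * n + 1 : ℕ) : ℝ) ^ 300) ^ (25 * (n - 1))) else ((p : ℝ) ^ 14) ^ (25 * (n - 1))) *
      ∏ i ∈ Finset.range (25 * (n - 1)), ((padicNorm p (((2 * i - 1).factorial : ℕ) : ℚ) ^ 2 : ℚ) : ℝ)
  else (p : ℝ) ^ (EW n p + K0)

lemma norm_fac_pos (p N : ℕ) (hp : p.Prime) : 0 < ((padicNorm p ((N.factorial : ℕ) : ℚ) ^ 2 : ℚ) : ℝ) := by
  have : Fact p.Prime := ⟨hp⟩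
  have : 0 < padicNorm p ((N.factorial : ℕ) : ℚ) :=
    lt_of_le_of_ne (padicNorm.nonneg _) (Ne.symm (padicNorm.nonzero (by exact_mod_cast Nat.factorial_ne_zero N)))
  exact_mod_cast pow_pos this 2

lemma Bf_pos (n p : ℕ) (K0 : ℝ) (hp : p.Prime) : 0 < Bf n p K0 := by
  have hp0 : (0 : ℝ) < p := by exact_mod_cast hp.pos
  unfold Bf
  split_ifs
  · apply mul_pos (by positivity)
    exact Finset.prod_pos fun i _ => norm_fac_pos p _ hp
  · apply mul_pos (by positivity)
    exact Finset.prod_pos fun i _ => norm_fac_pos p _ hp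
  · exact Real.rpow_pos_of_pos hp0 _

/-- the log of the local factor, small primes -/
lemma log_Bf_small (n p : ℕ) (K0 : ℝ) (hn : 7 ≤ n) (hp : p.Prime) (h : 20 * p ≤ n) :
    Real.log (Bf n p K0) ≤ 25 * (n : ℝ) * ((if p ^ 2 ≤ 50 * n then 300 * Real.log (50 * n + 1) else 0) + 14 * Real.log p) +
      ∑ i ∈ Finset.range (25 * (n - 1)), Real.log ((padicNorm p (((2 * i - 1).factorial : ℕ) : ℚ) ^ 2 : ℚ) : ℝ) := by
  have hp0 : (0 : ℝ) < p := by exact_mod_cast hp.pos
  have hlp : 0 ≤ Real.log p := Real.log_nonneg (by exact_mod_cast hp.one_lt.le)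
  have hn0 : (0 : ℝ) ≤ n := by positivity
  have hl : 0 ≤ Real.log (50 * (n : ℝ) + 1) := Real.log_nonneg (by linarith)
  have hprod : Real.log (∏ i ∈ Finset.range (25 * (n - 1)), ((padicNorm p (((2 * i - 1).factorial : ℕ) : ℚ) ^ 2 : ℚ) : ℝ))
      = ∑ i ∈ Finset.range (25 * (n - 1)), Real.log ((padicNorm p (((2 * i - 1).factorial : ℕ) : ℚ) ^ 2 : ℚ) : ℝ) :=
    Real.log_prod (fun i _ => (norm_fac_pos p _ hp).ne')
  have hpp : 0 < ∏ i ∈ Finset.range (25 * (n - 1)), ((padicNorm p (((2 * i - 1).factorial : ℕ) : ℚ) ^ 2 : ℚ) : ℝ) :=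
    Finset.prod_pos fun i _ => norm_fac_pos p _ hp
  have hm : ((25 * (n - 1) : ℕ) : ℝ) ≤ 25 * n := by
    have : 25 * (n - 1) ≤ 25 * n := by omega
    exact_mod_cast this
  unfold Bf
  rw [if_pos h, Real.log_mul (by split_ifs <;> positivity) hpp.ne', hprod]
  apply add_le_add_left
  split_ifs with h2
  · have e50 : (((50 * n + 1 : ℕ) : ℝ)) = 50 * (n : ℝ) + 1 := by push_cast; ring
    rw [Real.log_pow, Real.log_pow, e50, Nat.cast_ofNat]
    have h3 : 300 * Real.log (50 * (n : ℝ) + 1) ≤ 300 * Real.log (50 * (n : ℝ) + 1) + 14 * Real.log p := by linarith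
    have h4 : ((25 * (n - 1) : ℕ) : ℝ) * (300 * Real.log (50 * (n : ℝ) + 1)) ≤ 25 * n * (300 * Real.log (50 * (n : ℝ) + 1)) :=
      mul_le_mul_of_nonneg_right hm (by positivity)
    nlinarith
  · rw [Real.log_pow, Real.log_pow, Nat.cast_ofNat]
    have h4 : ((25 * (n - 1) : ℕ) : ℝ) * (14 * Real.log p) ≤ 25 * n * (14 * Real.log p) :=
      mul_le_mul_of_nonneg_right hm (by positivity)
    linarith

lemma log_Bf_large (n p : ℕ) (K0 : ℝ) (hp : p.Prime) (h : ¬ 20 * p ≤ n) :
    Real.log (Bf n p K0) = (EW n p + K0) * Real.log p := by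
  unfold Bf
  rw [if_neg h, Real.log_rpow (by exact_mod_cast hp.pos)]

lemma norm_le_Bf (n p : ℕ) (K0 : ℝ) (hn : 7 ≤ n) (hp : p.Prime) (q : ℕ) (u : ℕ → ℚ) (hu : UInt q u)
    (hE : n < 20 * p → 18 * n < p ^ 2 → ((padicNorm p ((q : ℚ) ^ (25 * (n - 1)) * DET n u (25 * (n - 1))) : ℚ) : ℝ) ≤
      if p < 13 * n then (p : ℝ) ^ (EW n p + K0) else 1) (hn2 : 7200 ≤ n) (hp7 : p < 13 * n) :
    ((padicNorm p ((q : ℚ) ^ (25 * (n - 1)) * DET n u (25 * (n - 1))) : ℚ) : ℝ) ≤ Bf n p K0 := by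
  have : Fact p.Prime := ⟨hp⟩
  unfold Bf
  by_cases h : 20 * p ≤ n
  · rw [if_pos h]
    by_cases h2 : p ^ 2 ≤ 50 * n
    · rw [if_pos h2]
      have := D4_small_crude (p := p) (by omega : 1 ≤ n) q u hu (25 * (n - 1)) (by omega)
      have h3 : ((padicNorm p ((q : ℚ) ^ (25 * (n - 1)) * DET n u (25 * (n - 1))) : ℚ) : ℝ) ≤
        (((((50 * n + 1 : ℕ) : ℚ) ^ 300) ^ (25 * (n - 1)) * ∏ i ∈ Finset.range (25 * (n - 1)), padicNorm p (((2 * i - 1).factorial : ℕ) : ℚ) ^ 2 : ℚ) : ℝ) := by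
        exact_mod_cast this
      refine h3.trans (le_of_eq ?_)
      push_cast
      rfl
    · rw [if_neg h2]
      have := D4_small_med (p := p) (by omega : 1 ≤ n) (by omega) q u hu (25 * (n - 1)) (by omega)
      have h3 : ((padicNorm p ((q : ℚ) ^ (25 * (n - 1)) * DET n u (25 * (n - 1))) : ℚ) : ℝ) ≤
        ((((p : ℚ) ^ 14) ^ (25 * (n - 1)) * ∏ i ∈ Finset.range (25 * (n - 1)), padicNorm p (((2 * i - 1).factorial : ℕ) : ℚ) ^ 2 : ℚ) : ℝ) := by
        exact_mod_cast this
      refine h3.trans (le_of_eq ?_)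
      push_cast
      rfl
  · rw [if_neg h]
    have := hE (by omega) (by nlinarith)
    rw [if_pos hp7] at this
    exact this

lemma EW_split (n : ℕ) (hn : 7 ≤ n) (K0 : ℝ) (hK0 : 0 ≤ K0) :
    ∑ p ∈ ((Finset.range (13 * n)).filter Nat.Prime).filter (fun p => ¬ 20 * p ≤ n), (EW n p + K0) * Real.log p ≤
      ∑ p ∈ PS (1 / 20) 2 n, EA n p * Real.log p + ∑ p ∈ PS 2 (17 / 2) n, EB n p * Real.log p +
      ∑ p ∈ PS (17 / 2) 13 n, EC n p * Real.log p + K0 * (Real.log 4 * (13 * n)) := by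
  classical
  have hn0 : (0 : ℝ) < n := by exact_mod_cast (by omega : 0 < n)
  simp only [add_mul, Finset.sum_add_distrib]
  apply add_le_add
  · apply le_of_eq
    set T := ((Finset.range (13 * n)).filter Nat.Prime).filter (fun p => ¬ 20 * p ≤ n) with hT
    have e1 : PS (1 / 20) 2 n = T.filter (fun p => p < 2 * n) := by
      ext p
      unfold PS
      rw [hT]
      simp only [Finset.mem_filter, Finset.mem_range]
      constructor
      · rintro ⟨h1, h2, h3, h4⟩
        have h5 : n < 20 * p := by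
          have : (n : ℝ) < 20 * p := by linarith
          exact_mod_cast this
        have h6 : p < 2 * n := by exact_mod_cast h4
        exact ⟨⟨⟨by omega, h2⟩, by omega⟩, h6⟩
      · rintro ⟨⟨⟨h1, h2⟩, h3⟩, h4⟩
        refine ⟨by omega, h2, ?_, by exact_mod_cast h4⟩
        have : (n : ℝ) < 20 * p := by exact_mod_cast (by omega : n < 20 * p)
        linarith
    have e2 : PS 2 (17 / 2) n = (T.filter (fun p => ¬ p < 2 * n)).filter (fun p => 2 * p < 17 * n) := by
      ext p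
      unfold PS
      rw [hT]
      simp only [Finset.mem_filter, Finset.mem_range]
      constructor
      · rintro ⟨h1, h2, h3, h4⟩
        have h5 : 2 * n < p := by exact_mod_cast h3
        have h6 : 2 * p < 17 * n := by
          have : 2 * (p : ℝ) < 17 * n := by linarith
          exact_mod_cast this
        exact ⟨⟨⟨⟨by omega, h2⟩, by omega⟩, by omega⟩, h6⟩
      · rintro ⟨⟨⟨⟨h1, h2⟩, h3⟩, h4⟩, h5⟩
        have h7 : 2 * (p : ℝ) < 17 * n := by exact_mod_cast h5
        refine ⟨by omega, h2, ?_, by linarith⟩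
        have h6 : 2 * n ≠ p := by
          rintro rfl
          exact Nat.not_prime_mul (by norm_num) (by omega) h2
        exact_mod_cast (by omega : 2 * n < p)
    have e3 : PS (17 / 2) 13 n = (T.filter (fun p => ¬ p < 2 * n)).filter (fun p => ¬ 2 * p < 17 * n) := by
      ext p
      unfold PS
      rw [hT]
      simp only [Finset.mem_filter, Finset.mem_range]
      constructor
      · rintro ⟨h1, h2, h3, h4⟩
        have h5 : 17 * n < 2 * p := by
          have : 17 * (n : ℝ) < 2 * p := by linarith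
          exact_mod_cast this
        have h6 : p < 13 * n := by exact_mod_cast h4
        exact ⟨⟨⟨⟨by omega, h2⟩, by omega⟩, by omega⟩, by omega⟩
      · rintro ⟨⟨⟨⟨h1, h2⟩, h3⟩, h4⟩, h5⟩
        refine ⟨by omega, h2, ?_, by exact_mod_cast h1⟩
        have h6 : 17 * n ≠ 2 * p := by
          intro h6
          have h7 : 17 ∣ p := by
            have : 17 ∣ 2 * p := ⟨n, h6.symm⟩
            exact (Nat.Coprime.dvd_mul_left (by norm_num : Nat.Coprime 17 2)).1 this
          have h8 := (Nat.prime_dvd_prime_iff_eq (by norm_num) h2).1 h7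
          omega
        have h9 : (17 : ℝ) * n < 2 * p := by exact_mod_cast (by omega : 17 * n < 2 * p)
        linarith
    rw [e1, e2, e3, ← Finset.sum_filter_add_sum_filter_not T (fun p => p < 2 * n), add_assoc]
    congr 1
    · apply Finset.sum_congr rfl
      intro p hp
      rw [Finset.mem_filter] at hp
      unfold EW
      rw [if_pos hp.2]
    · rw [← Finset.sum_filter_add_sum_filter_not (T.filter (fun p => ¬ p < 2 * n)) (fun p => 2 * p < 17 * n)]
      congr 1
      · apply Finset.sum_congr rfl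
        intro p hp
        rw [Finset.mem_filter, Finset.mem_filter] at hp
        unfold EW
        rw [if_neg hp.1.2, if_pos hp.2]
      · apply Finset.sum_congr rfl
        intro p hp
        rw [Finset.mem_filter, Finset.mem_filter, hT, Finset.mem_filter, Finset.mem_filter, Finset.mem_range] at hp
        unfold EW
        rw [if_neg hp.1.2, if_neg hp.2, if_pos hp.1.1.1.1]
  · rw [← Finset.mul_sum]
    apply mul_le_mul_of_nonneg_left _ hK0
    refine le_trans ?_ (Chebyshev.theta_le_log4_mul_x (x := 13 * n) (by positivity))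
    unfold Chebyshev.theta
    apply Finset.sum_le_sum_of_subset_of_nonneg
    · intro p hp
      rw [Finset.mem_filter, Finset.mem_filter, Finset.mem_range] at hp
      rw [Finset.mem_filter, Finset.mem_Ioc]
      refine ⟨⟨hp.1.2.pos, ?_⟩, hp.1.2⟩
      rw [Nat.le_floor_iff (by positivity)]
      have : ((p : ℕ) : ℝ) ≤ ((13 * n : ℕ) : ℝ) := by exact_mod_cast hp.1.1.le
      push_cast at this
      exact this
    · intro p hp _
      rw [Finset.mem_filter] at hp
      exact Real.log_nonneg (by exact_mod_cast hp.2.one_lt.le)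

lemma ev_of_tendsto {f : ℕ → ℝ} {L : ℝ} (h : Tendsto (fun n : ℕ => f n / (n : ℝ) ^ 2) atTop (𝓝 L)) (ε : ℝ) (hε : 0 < ε) :
    ∀ᶠ n : ℕ in atTop, f n ≤ (L + ε) * (n : ℝ) ^ 2 := by
  filter_upwards [h.eventually_lt_const (show L < L + ε by linarith), eventually_ge_atTop 1] with n h1 hn
  have hn0 : (0 : ℝ) < (n : ℝ) ^ 2 := by
    have : (0 : ℝ) < n := by exact_mod_cast hn
    positivity
  rw [div_lt_iff₀ hn0] at h1
  exact h1.le

theorem Z_main : ∃ i ∈ ({7, 9, 11, 13} : Finset ℕ), Irrational (zr i) := by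
  by_contra hcon
  push Not at hcon
  have hc : ∀ i ∈ ({3, 5, 7, 9} : Finset ℕ), ∃ a : ℚ, (a : ℝ) = zr (i + 4) := by
    intro i hi
    have h1 : i + 4 ∈ ({7, 9, 11, 13} : Finset ℕ) := by
      fin_cases hi <;> decide
    have h2 := hcon (i + 4) h1
    unfold Irrational at h2
    rw [not_not] at h2
    exact h2
  choose! a ha using hc
  set u : ℕ → ℚ := fun i => if i ∈ ({3, 5, 7, 9} : Finset ℕ) then a i else 0 with hu_def
  have huz : ∀ i ∈ ({3, 5, 7, 9} : Finset ℕ), zr (i + 4) = (u i : ℝ) := by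
    intro i hi
    have h1 : u i = a i := if_pos hi
    rw [h1]
    exact (ha i hi).symm
  set q : ℕ := ∏ i ∈ ({3, 5, 7, 9} : Finset ℕ), (a i).den with hq_def
  have hq0 : 0 < q := Finset.prod_pos fun i _ => (a i).den_pos
  have hu : UInt q u := by
    refine ⟨hq0, fun i => ?_⟩
    by_cases hi : i ∈ ({3, 5, 7, 9} : Finset ℕ)
    · obtain ⟨c, hc⟩ := Finset.dvd_prod_of_mem (fun i => (a i).den) hi
      refine ⟨c * (a i).num, ?_⟩
      have h1 : u i = a i := if_pos hi
      have h2 : a i * ((a i).den : ℚ) = (a i).num := Rat.mul_den_eq_num (a i)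
      have h3 : (q : ℚ) = ((a i).den : ℚ) * (c : ℚ) := by
        rw [hq_def, hc]
        push_cast
        ring
      rw [h1, h3]
      push_cast
      rw [← h2]
      ring
    · refine ⟨0, ?_⟩
      have h1 : u i = 0 := if_neg hi
      rw [h1]
      simp
  obtain ⟨K0, hK0, hE4⟩ := E4_padic
  obtain ⟨p0, hH6⟩ := H6_nonvanish u q hu
  have hF3 : ((LA + LB + LC + LU : ℚ) : ℝ) ≤ 228864 / 100 := by
    have h := (Rat.cast_le (K := ℝ)).2 F3_numeric
    refine h.trans (le_of_eq ?_)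
    norm_num
  have hnum := Z_num hF3
  -- the eventual inequalities
  have hε : (0 : ℝ) < 1 / 100 := by norm_num
  have ev1 := G4_arch (1 / 100) hε
  have ev2 := ev_of_tendsto F2_A (1 / 100) hε
  have ev3 := ev_of_tendsto F2_B (1 / 100) hε
  have ev4 := ev_of_tendsto F2_C (1 / 100) hε
  have ev5 := ev_of_tendsto F2_U (1 / 100) hε
  have ev6 := F4_small (1 / 100) hε
  have ev7 := F5_fact
  have ev8 := F6_superfac (1 / 100) hε
  have ev9 : ∀ᶠ n : ℕ in atTop, 25 * Real.log q + K0 * (Real.log 4 * 13) ≤ 1 / 100 * n := by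
    have := (tendsto_natCast_atTop_atTop (R := ℝ)).const_mul_atTop hε
    exact this.eventually_ge_atTop _
  obtain ⟨N1, hN1⟩ := eventually_atTop.1 ev1
  obtain ⟨N2, hN2⟩ := eventually_atTop.1 (ev2.and (ev3.and (ev4.and (ev5.and (ev6.and (ev7.and (ev8.and ev9)))))))
  obtain ⟨n, hnp, hngt, hnmod⟩ := Nat.exists_prime_gt_modEq_one (k := 24) (24 * N1 + N2 + p0 + 7200) (by norm_num)
  obtain ⟨N, hN⟩ : ∃ N, n = 24 * N + 1 := by
    have h1 : n % 24 = 1 := hnmod
    exact ⟨n / 24, by omega⟩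
  have hDne : DET n u (25 * (n - 1)) ≠ 0 := hH6 n (by omega) hnp
  have g1 := hN1 N (by omega) n hN u huz hDne
  obtain ⟨g2, g3, g4, g5, g6, g7, g8, g9⟩ := hN2 n (by omega)
  have hn7 : 7 ≤ n := by omega
  have hn0 : (0 : ℝ) < n := by exact_mod_cast (by omega : 0 < n)
  set D := DET n u (25 * (n - 1)) with hD
  set z : ℚ := (q : ℚ) ^ (25 * (n - 1)) * D with hz
  have hqr : (0 : ℝ) < q := by exact_mod_cast hq0
  have hz0 : z ≠ 0 := mul_ne_zero (by positivity) hDne
  set S := (Finset.range (13 * n)).filter Nat.Prime with hS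
  have hpf := Pool.Agent.H336R2.HD.A5_prod_formula z hz0 S (fun p hp => (Finset.mem_filter.1 hp).2) (fun p => Bf n p K0)
    (fun p hp => by
      rw [hS, Finset.mem_filter, Finset.mem_range] at hp
      exact norm_le_Bf n p K0 hn7 hp.2 q u hu (fun h1 h2 => hE4 n hn7 p hp.2 h1 h2 q u hu) (by omega) hp.1)
    (fun p hp hpS => by
      rw [hS, Finset.mem_filter, Finset.mem_range] at hpS
      have h1 : 13 * n ≤ p := by
        by_contra h; exact hpS ⟨by omega, hp⟩
      have h2 := hE4 n hn7 p hp (by omega) (by nlinarith) q u hu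
      rw [if_neg (by omega)] at h2
      have h3 : padicNorm p ((q : ℚ) ^ (25 * (n - 1)) * DET n u (25 * (n - 1))) ≤ 1 := by
        exact_mod_cast h2
      exact h3)
  have hprodpos : 0 < ∏ p ∈ S, Bf n p K0 :=
    Finset.prod_pos fun p hp => Bf_pos n p K0 (Finset.mem_filter.1 hp).2
  have hzabs : 0 < |(z : ℝ)| := abs_pos.2 (by exact_mod_cast hz0)
  have hlog := Real.log_nonneg hpf
  rw [Real.log_mul hzabs.ne' hprodpos.ne', Real.log_prod (fun p hp => (Bf_pos n p K0 (Finset.mem_filter.1 hp).2).ne')] at hlog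
  have hzlog : Real.log |(z : ℝ)| = ((25 * (n - 1) : ℕ) : ℝ) * Real.log q + Real.log |((D : ℚ) : ℝ)| := by
    rw [hz, Rat.cast_mul, Rat.cast_pow, Rat.cast_natCast]
    rw [abs_mul, Real.log_mul (by positivity) (abs_pos.2 (by exact_mod_cast hDne)).ne', abs_of_pos (by positivity), Real.log_pow]
  have hlq : 0 ≤ Real.log q := Real.log_nonneg (by exact_mod_cast hq0)
  have hmq : ((25 * (n - 1) : ℕ) : ℝ) * Real.log q ≤ 25 * n * Real.log q := by
    apply mul_le_mul_of_nonneg_right _ hlq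
    have : 25 * (n - 1) ≤ 25 * n := by omega
    exact_mod_cast this
  -- split of the sum
  rw [← Finset.sum_filter_add_sum_filter_not S (fun p => 20 * p ≤ n)] at hlog
  have hsmall : ∑ p ∈ S.filter (fun p => 20 * p ≤ n), Real.log (Bf n p K0) ≤
      25 * (n : ℝ) * (∑ p ∈ (Finset.range (n + 1)).filter (fun p : ℕ => p.Prime ∧ p ^ 2 ≤ 50 * n),
        300 * Real.log (50 * n + 1) +
      ∑ p ∈ (Finset.range (n + 1)).filter (fun p : ℕ => p.Prime ∧ 20 * p ≤ n), 14 * Real.log p) +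
      ∑ p ∈ (Finset.range (n + 1)).filter (fun p : ℕ => p.Prime ∧ 20 * p ≤ n), ∑ i ∈ Finset.range (25 * (n - 1)),
      Real.log ((padicNorm p (((2 * i - 1).factorial : ℕ) : ℚ) ^ 2 : ℚ) : ℝ) := by
    have e1 : S.filter (fun p => 20 * p ≤ n) = (Finset.range (n + 1)).filter (fun p : ℕ => p.Prime ∧ 20 * p ≤ n) := by
      ext p
      rw [hS]
      simp only [Finset.mem_filter, Finset.mem_range]
      constructor
      · rintro ⟨⟨h1, h2⟩, h3⟩; exact ⟨by omega, h2, h3⟩
      · rintro ⟨h1, h2, h3⟩; exact ⟨⟨by omega, h2⟩, h3⟩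
    rw [e1]
    calc _ ≤ ∑ p ∈ (Finset.range (n + 1)).filter (fun p : ℕ => p.Prime ∧ 20 * p ≤ n),
          (25 * (n : ℝ) * ((if p ^ 2 ≤ 50 * n then 300 * Real.log (50 * n + 1) else 0) + 14 * Real.log p) +
          ∑ i ∈ Finset.range (25 * (n - 1)), Real.log ((padicNorm p (((2 * i - 1).factorial : ℕ) : ℚ) ^ 2 : ℚ) : ℝ)) := by
          apply Finset.sum_le_sum
          intro p hp
          rw [Finset.mem_filter] at hp
          exact log_Bf_small n p K0 hn7 hp.2.1 hp.2.2
      _ ≤ _ := by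
          rw [Finset.sum_add_distrib, ← Finset.mul_sum, Finset.sum_add_distrib]
          apply add_le_add_left
          apply mul_le_mul_of_nonneg_left _ (by positivity)
          apply add_le_add_left
          rw [← Finset.sum_filter]
          apply Finset.sum_le_sum_of_subset_of_nonneg
          · intro p hp
            simp only [Finset.mem_filter, Finset.mem_range] at hp ⊢
            exact ⟨hp.1.1, hp.1.2.1, hp.2⟩
          · intro p _ _
            have : 0 ≤ Real.log (50 * (n : ℝ) + 1) := Real.log_nonneg (by linarith)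
            positivity
  have hlarge : ∑ p ∈ S.filter (fun p => ¬ 20 * p ≤ n), Real.log (Bf n p K0) ≤
      ∑ p ∈ PS (1 / 20) 2 n, EA n p * Real.log p + ∑ p ∈ PS 2 (17 / 2) n, EB n p * Real.log p +
      ∑ p ∈ PS (17 / 2) 13 n, EC n p * Real.log p + K0 * (Real.log 4 * (13 * n)) := by
    refine le_trans (le_of_eq ?_) (EW_split n hn7 K0 hK0)
    apply Finset.sum_congr rfl
    intro p hp
    rw [hS, Finset.mem_filter, Finset.mem_filter] at hp
    exact log_Bf_large n p K0 hp.1.2 hp.2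
  have hfin : 25 * (n : ℝ) * Real.log q + K0 * (Real.log 4 * (13 * n)) ≤ 1 / 100 * (n : ℝ) ^ 2 := by
    have := mul_le_mul_of_nonneg_right g9 hn0.le
    nlinarith
  have hn2 : (0 : ℝ) < (n : ℝ) ^ 2 := by positivity
  push_cast at hnum
  have htot : 0 ≤ (JJ - (1250 * Real.log 50 - 1875) + 35 / 2 +
      ((LA : ℝ) + LB + LC + LU) + 8 / 100) * (n : ℝ) ^ 2 := by
    linarith
  have hneg : (JJ - (1250 * Real.log 50 - 1875) + 35 / 2 +
      ((LA : ℝ) + LB + LC + LU) + 8 / 100) * (n : ℝ) ^ 2 < 0 := by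
    apply mul_neg_of_neg_of_pos _ hn2
    linarith
  linarith

end

end Pool.Agent.U795.Z7
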