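import Pool.Agent.U795.Z7.E3Base
import Pool.Agent.U795.Z7.D2
import Pool.Agent.U795.Z7.E1
import Pool.Agent.U795.Z7.E2
import Pool.Agent.U795.Z7.E2pz

/-! Common lemmas of the tasks E3A, E3B. -/

open Polynomial Pool.Agent.H337R2

namespace Pool.Agent.U795.Z7

noncomputable section

lemma E3_sym (n p r : ℕ) (hn : 1 ≤ n) (hr : r < p) (hp : p < 18 * n) :
    eeN p n r = eeN p n ((18 * n - r) % p) := by
  have hp0 : 0 < p := by omega
  have h1 : (18 * n - r) % p < p := Nat.mod_lt _ hp0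
  have hr' : r % p = r := Nat.mod_eq_of_lt hr
  have h2 : (18 * n - (18 * n - r) % p) % p = r := by
    have h3 : 18 * n - (18 * n - r) % p = r + p * ((18 * n - r) / p) := by
      have := Nat.mod_add_div (18 * n - r) p
      omega
    rw [h3, Nat.add_mul_mod_self_left, hr']
  have h4 : kap n p ((18 * n - r) % p) = kap n p r := by
    unfold kap
    rw [h2, Nat.mod_mod, hr', min_comm]
  rw [← D2_ee_kap hn hp0 (by omega : r ≤ 18 * n), ← h4, D2_ee_kap hn hp0 (by omega)]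

lemma E3_bound {n p : ℕ} (hp : p.Prime) (hn : 7 ≤ n) (hpn : n < 20 * p) (hp5 : p < 18 * n) (hp2 : 18 * n < p ^ 2)
    (μ : ℤ) (hμ : μ = 5 - (10 * ((12 * n / p : ℕ) : ℤ) - 10 * ((2 * n / p : ℕ) : ℤ))) :
    2 * ∑ κ ∈ Kset n p, TT (4 - eeN p n κ - μ) ≤
      ∑ r ∈ Finset.range p, TT ((10 * (cP n p r : ℤ) - 5 * ((cz1 n p r : ℤ) + cz2 n p r)) - 1) + 2410 ^ 2 := by
  have hp0 : 0 < p := hp.pos
  have hne : p ≠ 2 := by
    rintro rfl
    omega
  have hPle : ∀ r, (cP n p r : ℤ) ≤ 241 := by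
    intro r
    have h1 := H336R2.HD.E3_cnt_le p (3 * n) (15 * n) r hp0 (by omega)
    have h2 : (((15 * n : ℕ) : ℤ) - ((3 * n : ℕ) : ℤ) + 1) / (p : ℤ) ≤ 240 := by
      have h3 : (((15 * n : ℕ) : ℤ) - ((3 * n : ℕ) : ℤ) + 1) ≤ (p : ℤ) * 240 := by
        push_cast
        have : (n : ℤ) < 20 * p := by exact_mod_cast hpn
        linarith
      calc (((15 * n : ℕ) : ℤ) - ((3 * n : ℕ) : ℤ) + 1) / (p : ℤ) ≤ ((p : ℤ) * 240) / p :=
            Int.ediv_le_ediv (by exact_mod_cast hp0) h3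
        _ = 240 := Int.mul_ediv_cancel_left _ (by exact_mod_cast hp0.ne')
    unfold cP
    linarith
  have h := E1_Kset_sum (n := n) hp hne hp5 (fun r => TT (4 - eeN p n r - μ)) (2410 ^ 2) (by norm_num)
    (by
      intro r hr
      rw [E3_sym n p r (by omega) hr hp5])
    (by
      intro r hr
      rw [E3_form n p r μ hμ]
      apply H336R2.HD.E3_TT_le' _ 2410 (by norm_num)
      have h1 := hPle r
      have h2 : (0 : ℤ) ≤ cz1 n p r := by positivity
      have h3 : (0 : ℤ) ≤ cz2 n p r := by positivity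
      linarith)
  simp only [E3_form n p _ μ hμ] at h ⊢
  exact h

lemma E3_JC (c : ℝ) (f : ℕ → ℝ) : ∑ j ∈ J, (f j + c) = ∑ j ∈ J, f j + 1000 * c := by
  rw [Finset.sum_add_distrib, Finset.sum_const, Nat.card_Icc]
  simp

lemma E3_P2 {n p : ℕ} (hn : 1 ≤ n) (hp : p.Prime) (hpn : n < 20 * p) :
    ∑ r ∈ Finset.range p, (cP n p r : ℝ) ^ 2 ≤ (12 * n + 1) + 2 * (∑ j ∈ J, tn (12 * n) j p + 1000) := by
  have h := E2_self (a := 12) hn hp hpn (3 * n) (by norm_num) (by norm_num)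
  have h1 : 3 * n + 12 * n = 15 * n := by ring
  rw [h1, E3_JC] at h
  push_cast at h
  unfold cP
  linarith

lemma E3_z1 {n p : ℕ} (hn : 1 ≤ n) (hp : p.Prime) (hpn : n < 20 * p) :
    ∑ r ∈ Finset.range p, (cz1 n p r : ℝ) ^ 2 ≤ (2 * n + 1) + 2 * (∑ j ∈ J, tn (2 * n) j p + 1000) := by
  have h := E2_self (a := 2) hn hp hpn 0 (by norm_num) (by norm_num)
  rw [zero_add, E3_JC] at h
  push_cast at h
  have h2 : ∑ r ∈ Finset.range p, (cz1 n p r : ℝ) ^ 2 ≤ ∑ r ∈ Finset.range p, (cnt p 0 (2 * n) r : ℝ) ^ 2 := by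
    apply Finset.sum_le_sum
    intro r _
    have h3 : cz1 n p r ≤ cnt p 0 (2 * n) r := by
      unfold cz1 cnt
      apply Finset.card_le_card
      apply Finset.filter_subset_filter
      apply Finset.Icc_subset_Icc_left
      norm_num
    gcongr
  linarith

lemma E3_z2 {n p : ℕ} (hn : 1 ≤ n) (hp : p.Prime) (hpn : n < 20 * p) :
    ∑ r ∈ Finset.range p, (cz2 n p r : ℝ) ^ 2 ≤ (2 * n + 1) + 2 * (∑ j ∈ J, tn (2 * n) j p + 1000) := by
  have h := E2_self (a := 2) hn hp hpn (16 * n) (by norm_num) (by norm_num)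
  have h1 : 16 * n + 2 * n = 18 * n := by ring
  rw [h1, E3_JC] at h
  push_cast at h
  have h2 : ∑ r ∈ Finset.range p, (cz2 n p r : ℝ) ^ 2 ≤ ∑ r ∈ Finset.range p, (cnt p (16 * n) (18 * n) r : ℝ) ^ 2 := by
    apply Finset.sum_le_sum
    intro r _
    have h3 : cz2 n p r ≤ cnt p (16 * n) (18 * n) r := by
      unfold cz2 cnt
      apply Finset.card_le_card
      apply Finset.filter_subset_filter
      apply Finset.Icc_subset_Icc_right
      omega
    gcongr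
  linarith

lemma E3_z12 {n p : ℕ} (hn : 1 ≤ n) (hp : p.Prime) (hpn : n < 20 * p) :
    ∑ r ∈ Finset.range p, (cz1 n p r : ℝ) * cz2 n p r ≤
      ∑ j ∈ J, (tn (18 * n) j p - 2 * tn (16 * n) j p + tn (14 * n) j p) + 1000 := by
  have h := E2_zz hn hp hpn
  rw [E3_JC] at h
  push_cast at h
  unfold cz1 cz2
  linarith

lemma E3_Pz {n p : ℕ} (hn : 1 ≤ n) (hp : p.Prime) (hpn : n < 20 * p) :
    2 * ∑ j ∈ J, (tn (15 * n) j p + tn n j p - tn (13 * n) j p - tn (3 * n) j p) ≤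
    ∑ r ∈ Finset.range p, (cP n p r : ℝ) * (cz1 n p r + cz2 n p r) := by
  have h := E2_pz hn hp hpn
  push_cast at h
  unfold cP cz1 cz2
  linarith

end

end Pool.Agent.U795.Z7
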