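import Pool.Agent.H336R2.HD.F2pre
import Pool.Agent.U795.Z7.FL

/-!
# Linear combinations of the prime sums

The statements `F2_A`, `F2_B`, `F2_C`, `F2_U` from the three elementary limits `F1_tent`, `F1_const`, `F1_floor`
(taken here as hypotheses).
-/

open Filter Topology

namespace Pool.Agent.U795.Z7

noncomputable section

/-- the statement of `F1_tent` -/
def F1T : Prop := ∀ (α j : ℕ) (_ : 1 ≤ j) (lo hi : ℚ) (_ : 0 < lo) (_ : lo ≤ hi) (_ : hi ≤ 50),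
    Tendsto (fun n : ℕ => (∑ p ∈ PS lo hi n, tn (α * n) j p * Real.log p) / (n : ℝ) ^ 2) atTop
      (𝓝 ((It α j lo hi : ℚ) : ℝ))

/-- the statement of `F1_const` -/
def F1C : Prop := ∀ (lo hi : ℚ) (_ : 0 < lo) (_ : lo ≤ hi) (_ : hi ≤ 50),
    Tendsto (fun n : ℕ => (∑ p ∈ PS lo hi n, (n : ℝ) * Real.log p) / (n : ℝ) ^ 2) atTop
      (𝓝 (((hi - lo : ℚ)) : ℝ))

/-- the statement of `F1_floor` -/
def F1F : Prop := ∀ (α : ℕ) (lo hi : ℚ) (_ : 1 / 20 ≤ lo) (_ : lo ≤ hi) (_ : hi ≤ 50) (_ : α ≤ 50),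
    Tendsto (fun n : ℕ => (∑ p ∈ PS lo hi n, (n : ℝ) * ((α * n / p : ℕ) : ℝ) * Real.log p) / (n : ℝ) ^ 2) atTop
      (𝓝 ((Ifl α lo hi : ℚ) : ℝ))

open H336R2.HD (Lm)

open H336R2.HD.Lm

theorem F2_A_of (hT : F1T) (hC : F1C) (hF : F1F) :
    Tendsto (fun n : ℕ => (∑ p ∈ PS (1 / 20) 2 n, EA n p * Real.log p) / (n : ℝ) ^ 2) atTop (𝓝 (LA : ℝ)) := by
  have T : ∀ α j : ℕ, j ∈ J → Lm (PS ((1 / 20 : ℚ) : ℝ) ((2 : ℚ) : ℝ)) (fun n p => tn (α * n) j p)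
      ((It α j (1 / 20) 2 : ℚ) : ℝ) := fun α j hj =>
    hT α j (Finset.mem_Icc.mp hj).1 (1 / 20) 2 (by norm_num) (by norm_num) (by norm_num)
  have T1 : ∀ j : ℕ, j ∈ J → Lm (PS ((1 / 20 : ℚ) : ℝ) ((2 : ℚ) : ℝ)) (fun n p => tn n j p)
      ((It 1 j (1 / 20) 2 : ℚ) : ℝ) := fun j hj =>
    (T 1 j hj).of_eq rfl (fun n p => by rw [one_mul]) rfl
  have F : ∀ α : ℕ, α ≤ 50 → Lm (PS ((1 / 20 : ℚ) : ℝ) ((2 : ℚ) : ℝ)) (fun n p => (n : ℝ) * ((α * n / p : ℕ) : ℝ))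
      ((Ifl α (1 / 20) 2 : ℚ) : ℝ) := fun α hα =>
    hF α (1 / 20) 2 (by norm_num) (by norm_num) (by norm_num) hα
  have K : Lm (PS ((1 / 20 : ℚ) : ℝ) ((2 : ℚ) : ℝ)) (fun n _ => (n : ℝ)) (((2 - 1 / 20 : ℚ)) : ℝ) :=
    hC (1 / 20) 2 (by norm_num) (by norm_num) (by norm_num)
  have S6 := Lm.sum J (fun j hj => T 12 j hj)
  have S2 := Lm.sum J (fun j hj => T 2 j hj)
  have SX := Lm.sum J (fun j hj => ((((T 15 j hj).add (T1 j hj)).sub (T 13 j hj)).sub (T 3 j hj)))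
  have SY := Lm.sum J (fun j hj => (((T 18 j hj).sub ((T 16 j hj).mul 2)).add (T 14 j hj)))
  have H := (((K.mul 125).sub ((F 12 (by norm_num)).mul 250)).add ((F 2 (by norm_num)).mul 250)).add
    ((((((K.mul 12).add (S6.mul 2)).mul 25).sub (SX.mul 50)).add
      ((((K.mul 4).add (S2.mul 4)).add (SY.mul 2)).mul (25 / 4))).div 2)
  refine Lm.of_eq H ?_ ?_ ?_
  · push_cast; rfl
  · intro n p
    unfold EA
    ring
  · unfold LA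
    push_cast
    ring

theorem F2_B_of (hT : F1T) (hC : F1C) (hF : F1F) :
    Tendsto (fun n : ℕ => (∑ p ∈ PS 2 (17 / 2) n, EB n p * Real.log p) / (n : ℝ) ^ 2) atTop (𝓝 (LB : ℝ)) := by
  have T : ∀ α j : ℕ, j ∈ J → Lm (PS ((2 : ℚ) : ℝ) ((17 / 2 : ℚ) : ℝ)) (fun n p => tn (α * n) j p)
      ((It α j 2 (17 / 2) : ℚ) : ℝ) := fun α j hj =>
    hT α j (Finset.mem_Icc.mp hj).1 2 (17 / 2) (by norm_num) (by norm_num) (by norm_num)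
  have T1 : ∀ j : ℕ, j ∈ J → Lm (PS ((2 : ℚ) : ℝ) ((17 / 2 : ℚ) : ℝ)) (fun n p => tn n j p)
      ((It 1 j 2 (17 / 2) : ℚ) : ℝ) := fun j hj =>
    (T 1 j hj).of_eq rfl (fun n p => by rw [one_mul]) rfl
  have F : ∀ α : ℕ, α ≤ 50 → Lm (PS ((2 : ℚ) : ℝ) ((17 / 2 : ℚ) : ℝ)) (fun n p => (n : ℝ) * ((α * n / p : ℕ) : ℝ))
      ((Ifl α 2 (17 / 2) : ℚ) : ℝ) := fun α hα =>
    hF α 2 (17 / 2) (by norm_num) (by norm_num) (by norm_num) hα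
  have K : Lm (PS ((2 : ℚ) : ℝ) ((17 / 2 : ℚ) : ℝ)) (fun n _ => (n : ℝ)) (((17 / 2 - 2 : ℚ)) : ℝ) :=
    hC 2 (17 / 2) (by norm_num) (by norm_num) (by norm_num)
  have S6 := Lm.sum J (fun j hj => T 12 j hj)
  have SX := Lm.sum J (fun j hj => ((((T 15 j hj).add (T1 j hj)).sub (T 13 j hj)).sub (T 3 j hj)))
  have SY := Lm.sum J (fun j hj => (((T 18 j hj).sub ((T 16 j hj).mul 2)).add (T 14 j hj)))
  have H := ((K.mul 125).sub ((F 12 (by norm_num)).mul 250)).add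
    ((((((K.mul 12).add (S6.mul 2)).mul 25).sub (SX.mul 50)).add
      ((K.mul 24).add (SY.mul 13))).div 2)
  refine Lm.of_eq H ?_ ?_ ?_
  · push_cast; rfl
  · intro n p
    unfold EB
    ring
  · unfold LB
    push_cast
    ring

theorem F2_C_of (hT : F1T) (hF : F1F) :
    Tendsto (fun n : ℕ => (∑ p ∈ PS (17 / 2) 13 n, EC n p * Real.log p) / (n : ℝ) ^ 2) atTop (𝓝 (LC : ℝ)) := by
  have T : ∀ α j : ℕ, j ∈ J → Lm (PS ((17 / 2 : ℚ) : ℝ) ((13 : ℚ) : ℝ)) (fun n p => tn (α * n) j p)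
      ((It α j (17 / 2) 13 : ℚ) : ℝ) := fun α j hj =>
    hT α j (Finset.mem_Icc.mp hj).1 (17 / 2) 13 (by norm_num) (by norm_num) (by norm_num)
  have F : ∀ α : ℕ, α ≤ 50 → Lm (PS ((17 / 2 : ℚ) : ℝ) ((13 : ℚ) : ℝ)) (fun n p => (n : ℝ) * ((α * n / p : ℕ) : ℝ))
      ((Ifl α (17 / 2) 13 : ℚ) : ℝ) := fun α hα =>
    hF α (17 / 2) 13 (by norm_num) (by norm_num) (by norm_num) hα
  have h1 : 1 ∈ J := Finset.mem_Icc.mpr ⟨le_rfl, by norm_num⟩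
  have H := (((F 12 (by norm_num)).mul (-250)).add ((T 12 1 h1).mul 22)).add ((T 13 1 h1).mul 56)
  refine Lm.of_eq H ?_ ?_ ?_
  · push_cast; rfl
  · intro n p
    unfold EC
    ring
  · unfold LC
    push_cast
    ring

theorem F2_U_of (hT : F1T) :
    Tendsto (fun n : ℕ => (∑ p ∈ PS (1 / 20) 50 n, (∑ j ∈ J, tn (50 * n) j p) * Real.log p) / (n : ℝ) ^ 2)
      atTop (𝓝 (LU : ℝ)) := by
  have T : ∀ α j : ℕ, j ∈ J → Lm (PS ((1 / 20 : ℚ) : ℝ) ((50 : ℚ) : ℝ)) (fun n p => tn (α * n) j p)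
      ((It α j (1 / 20) 50 : ℚ) : ℝ) := fun α j hj =>
    hT α j (Finset.mem_Icc.mp hj).1 (1 / 20) 50 (by norm_num) (by norm_num) (by norm_num)
  have H := Lm.sum J (fun j hj => T 50 j hj)
  refine Lm.of_eq H ?_ ?_ ?_
  · push_cast; rfl
  · intro n p
    rfl
  · unfold LU
    push_cast
    rfl

end

end Pool.Agent.U795.Z7
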